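import Mathlib

set_option autoImplicit false

/-!
Definitions used in the statement about homogeneity of crystallographic groups:
the first-order language of groups, types, homogeneity; crystallographic groups, their translation
subgroup, split and irreducible crystallographic groups.
-/

namespace Pool.Agent.H88.Cryst

open FirstOrder

/-- Function symbols of the first-order language of groups: a binary symbol for the product, a
unary symbol for the inverse, a constant for the identity. -/
inductive GroupFn : ℕ → Type
  | mul : GroupFn 2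
  | inv : GroupFn 1
  | one : GroupFn 0

/-- The first-order language of groups (no relation symbols besides equality). -/
def groupLang : FirstOrder.Language.{0, 0} := ⟨GroupFn, fun _ => Empty⟩

/-- Every group is a structure for the language of groups, in the obvious way. -/
instance groupStructure (G : Type*) [Group G] : groupLang.Structure G where
  funMap := fun {n} (f : GroupFn n) x =>
    match n, f, x with
    | _, .mul, x => x 0 * x 1
    | _, .inv, x => (x 0)⁻¹
    | _, .one, _ => 1
  RelMap := fun {_} (r : Empty) _ => r.elim

/-- Two `k`-tuples of a group have the same type: they satisfy the same first-order formulas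
`φ(x₁, …, x_k)` of the language of groups. -/
def SameType {G : Type*} [Group G] {k : ℕ} (u v : Fin k → G) : Prop :=
  ∀ φ : groupLang.Formula (Fin k), φ.Realize u ↔ φ.Realize v

/-- A group is homogeneous if any two tuples of the same type are related by an automorphism. -/
def IsHomogeneous (G : Type*) [Group G] : Prop :=
  ∀ k : ℕ, 1 ≤ k → ∀ u v : Fin k → G, SameType u v → ∃ σ : G ≃* G, ∀ i, σ (u i) = v i

/-- The group `Isom(ℝⁿ)` of isometries of the Euclidean space `ℝⁿ`. -/
abbrev Isom (n : ℕ) : Type := EuclideanSpace ℝ (Fin n) ≃ᵢ EuclideanSpace ℝ (Fin n)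

/-- `G ≤ Isom(ℝⁿ)` is a crystallographic group: it is discrete (for every point `x` and radius `r`
only finitely many `g ∈ G` move `x` by at most `r`) and cocompact (there is a compact set meeting
every orbit). -/
def IsCrystallographic {n : ℕ} (G : Subgroup (Isom n)) : Prop :=
  (∀ (x : EuclideanSpace ℝ (Fin n)) (r : ℝ), {g : Isom n | g ∈ G ∧ dist (g x) x ≤ r}.Finite) ∧
  ∃ K : Set (EuclideanSpace ℝ (Fin n)), IsCompact K ∧ ∀ x, ∃ g ∈ G, g x ∈ K

/-- The set of vectors `v` such that the translation `x ↦ x + v` lies in `G`. -/
def translationVectors {n : ℕ} (G : Subgroup (Isom n)) : Set (EuclideanSpace ℝ (Fin n)) :=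
  {v | ∃ g ∈ G, ∀ x, g x = x + v}

/-- The translation subgroup of `G`: all elements of `G` which are translations. -/
def translationSubgroup {n : ℕ} (G : Subgroup (Isom n)) : Subgroup (Isom n) where
  carrier := {g | g ∈ G ∧ ∃ v, ∀ x, g x = x + v}
  one_mem' := ⟨G.one_mem, 0, fun x => by simp⟩
  mul_mem' := by
    rintro g h ⟨hg, v, hv⟩ ⟨hh, w, hw⟩
    refine ⟨G.mul_mem hg hh, w + v, fun x => ?_⟩
    rw [IsometryEquiv.mul_apply, hw, hv, add_assoc]
  inv_mem' := by
    rintro g ⟨hg, v, hv⟩
    refine ⟨G.inv_mem hg, -v, fun x => ?_⟩
    apply g.injective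
    rw [IsometryEquiv.apply_inv_self, hv]
    abel

/-- `G` is split: the translation subgroup `T` has a complement, that is, there is a subgroup
`H ≤ G` with `H ∩ T = 1` and `G = T H` (so that `G ≅ T ⋊ G/T`). -/
def IsSplit {n : ℕ} (G : Subgroup (Isom n)) : Prop :=
  ∃ H : Subgroup (Isom n), H ≤ G ∧ H ⊓ translationSubgroup G = ⊥ ∧
    ∀ g ∈ G, ∃ t ∈ translationSubgroup G, ∃ h ∈ H, g = t * h

/-- `G` is irreducible: the linear parts `v ↦ g v - g 0` of the elements of `G` act irreducibly on
the rational vector space spanned by the translation vectors of `G` (which is the rational vector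
space `T ⊗ ℚ ≅ ℚⁿ`). -/
def IsIrreducible {n : ℕ} (G : Subgroup (Isom n)) : Prop :=
  ∀ W : Submodule ℚ (EuclideanSpace ℝ (Fin n)),
    W ≤ Submodule.span ℚ (translationVectors G) →
    (∀ g ∈ G, ∀ w ∈ W, g w - g 0 ∈ W) →
    W = ⊥ ∨ W = Submodule.span ℚ (translationVectors G)

end Pool.Agent.H88.Cryst
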