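import Mathlib

set_option autoImplicit false

/-!
An algebraic lemma: a semilinear map which is invertible modulo the divisible part of a
torsion-free abelian group, together with a rationally invertible semilinear map, yields a
semilinear automorphism.
-/

namespace Pool.Agent.H88.Cryst

section Divisible

variable {M : Type} [AddCommGroup M]

/-- `x` is divisible by every nonzero natural number. -/
def InD (x : M) : Prop := ∀ n : ℕ, n ≠ 0 → ∃ y : M, n • y = x

/-- The subgroup of divisible elements. -/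
def divPart (M : Type) [AddCommGroup M] : AddSubgroup M where
  carrier := {x | InD x}
  zero_mem' := fun n _ => ⟨0, smul_zero n⟩
  add_mem' := by
    intro a b ha hb n hn
    obtain ⟨y, hy⟩ := ha n hn
    obtain ⟨z, hz⟩ := hb n hn
    exact ⟨y + z, by rw [smul_add, hy, hz]⟩
  neg_mem' := by
    intro a ha n hn
    obtain ⟨y, hy⟩ := ha n hn
    exact ⟨-y, by rw [smul_neg, hy]⟩

theorem mem_divPart (x : M) : x ∈ divPart M ↔ InD x := Iff.rfl

theorem map_mem_divPart (f : M →+ M) {x : M} (hx : x ∈ divPart M) : f x ∈ divPart M := by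
  intro n hn
  obtain ⟨y, hy⟩ := hx n hn
  exact ⟨f y, by rw [← map_nsmul, hy]⟩

theorem exists_div (htf : ∀ n : ℕ, n ≠ 0 → ∀ x : M, n • x = 0 → x = 0) {x : M}
    (hx : x ∈ divPart M) (n : ℕ) (hn : n ≠ 0) : ∃ y ∈ divPart M, n • y = x := by
  obtain ⟨y, hy⟩ := hx n hn
  refine ⟨y, ?_, hy⟩
  intro m hm
  obtain ⟨z, hz⟩ := hx (n * m) (Nat.mul_ne_zero hn hm)
  refine ⟨z, ?_⟩
  have h1 : n • (m • z - y) = 0 := by
    rw [smul_sub, hy, ← mul_smul, hz, sub_self]
  exact sub_eq_zero.mp (htf n hn _ h1)

/-- There is an additive projection onto the divisible part. -/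
theorem exists_projection (htf : ∀ n : ℕ, n ≠ 0 → ∀ x : M, n • x = 0 → x = 0) :
    ∃ P : M →+ M, (∀ x, P x ∈ divPart M) ∧ ∀ x ∈ divPart M, P x = x := by
  have hsurj : ∀ n : ℤ, n ≠ 0 → Function.Surjective (fun a : divPart M => n • a) := by
    intro n hn a
    obtain ⟨y, hy, hyx⟩ := exists_div htf a.2 n.natAbs (Int.natAbs_ne_zero.mpr hn)
    rcases Int.natAbs_eq n with h | h
    · refine ⟨⟨y, hy⟩, ?_⟩
      ext
      show n • y = _
      rw [h, natCast_zsmul, hyx]
    · refine ⟨⟨-y, neg_mem hy⟩, ?_⟩
      ext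
      show n • (-y) = _
      rw [h, neg_smul, natCast_zsmul, smul_neg, neg_neg, hyx]
  let _ : DivisibleBy (divPart M) ℤ :=
    divisibleByOfSMulRightSurj (divPart M) ℤ (fun {n} hn => hsurj n hn)
  have hB : Module.Baer ℤ (divPart M) := Module.Baer.of_divisible _
  obtain ⟨h, hh⟩ := hB.extension_property_addMonoidHom (divPart M).subtype
    (Subtype.val_injective) (AddMonoidHom.id _)
  refine ⟨(divPart M).subtype.comp h, fun x => (h x).2, fun x hx => ?_⟩
  have := DFunLike.congr_fun hh ⟨x, hx⟩
  show ((h x : divPart M) : M) = x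
  have h2 : h x = ⟨x, hx⟩ := this
  rw [h2]

variable {H : Type} [Group H] [DistribMulAction H M]

theorem smul_mem_divPart (h : H) {x : M} (hx : x ∈ divPart M) : h • x ∈ divPart M :=
  map_mem_divPart (DistribSMul.toAddMonoidHom M h) hx

/-- There is an `H`-equivariant additive projection onto the divisible part. -/
theorem exists_equivariant_projection (H : Type) [Group H] [Finite H] [DistribMulAction H M]
    (htf : ∀ n : ℕ, n ≠ 0 → ∀ x : M, n • x = 0 → x = 0) :
    ∃ P : M →+ M, (∀ x, P x ∈ divPart M) ∧ (∀ x ∈ divPart M, P x = x) ∧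
      ∀ (h : H) (x : M), P (h • x) = h • P x := by
  obtain ⟨P0, hP0, hP0'⟩ := exists_projection htf
  cases nonempty_fintype H
  have hN : Fintype.card H ≠ 0 := Fintype.card_ne_zero
  have hex : ∀ x : M, ∃ y ∈ divPart M, Fintype.card H • y = ∑ h : H, h⁻¹ • P0 (h • x) := by
    intro x
    apply exists_div htf _ _ hN
    exact sum_mem (fun h _ => smul_mem_divPart _ (hP0 _))
  choose P hP hP' using hex
  have huniq : ∀ a b : M, Fintype.card H • a = Fintype.card H • b → a = b := by
    intro a b hab
    have : Fintype.card H • (a - b) = 0 := by rw [smul_sub, hab, sub_self]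
    exact sub_eq_zero.mp (htf _ hN _ this)
  refine ⟨AddMonoidHom.mk' P ?_, hP, ?_, ?_⟩
  · intro a b
    apply huniq
    rw [smul_add, hP', hP', hP', ← Finset.sum_add_distrib]
    apply Finset.sum_congr rfl
    intro h _
    rw [smul_add, map_add, smul_add]
  · intro x hx
    apply huniq
    show Fintype.card H • P x = _
    rw [hP']
    have : ∀ h : H, h⁻¹ • P0 (h • x) = x := by
      intro h
      rw [hP0' _ (smul_mem_divPart h hx), inv_smul_smul]
    simp only [this]
    simp
  · intro g x
    apply huniq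
    show Fintype.card H • P (g • x) = Fintype.card H • (g • P x)
    rw [smul_comm (Fintype.card H) g (P x), hP', hP', Finset.smul_sum]
    refine Fintype.sum_equiv (Equiv.mulRight g) _ _ (fun h => ?_)
    show h⁻¹ • P0 (h • g • x) = g • (h * g)⁻¹ • P0 ((h * g) • x)
    rw [← mul_smul h g x, mul_inv_rev, mul_smul g⁻¹ h⁻¹, smul_inv_smul]

/-- **Algebraic lemma.** -/
theorem exists_semilinear_aut (H : Type) [Group H] [Finite H] [DistribMulAction H M]
    (htf : ∀ n : ℕ, n ≠ 0 → ∀ x : M, n • x = 0 → x = 0) (φ : H → H)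
    (F G f g : M →+ M) (d : ℕ) (hd : d ≠ 0)
    (hGF : ∀ x, G (F x) - x ∈ divPart M) (hFG : ∀ x, F (G x) - x ∈ divPart M)
    (hgf : ∀ x, g (f x) = d • x) (hfg : ∀ x, f (g x) = d • x)
    (hF : ∀ (h : H) (x : M), F (h • x) = φ h • F x)
    (hf : ∀ (h : H) (x : M), f (h • x) = φ h • f x) :
    ∃ Φ : M ≃+ M, ∀ (h : H) (x : M), Φ (h • x) = φ h • Φ x := by
  obtain ⟨P, hP, hP', hPH⟩ := exists_equivariant_projection (M := M) H htf
  have hPP : ∀ x, P (P x) = P x := fun x => hP' _ (hP x)
  have hPD : ∀ x, x ∈ divPart M → P x = x := hP'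
  -- definition of the map
  let Φ : M →+ M :=
    (F.comp (AddMonoidHom.id M - P)) - P.comp (F.comp (AddMonoidHom.id M - P)) + f.comp P
  have hΦ : ∀ x, Φ x = F (x - P x) - P (F (x - P x)) + f (P x) := fun x => rfl
  have hinj : Function.Injective Φ := by
    rw [injective_iff_map_eq_zero]
    intro x hx
    rw [hΦ] at hx
    -- apply P
    have h1 : f (P x) = 0 := by
      have h2 := congrArg P hx
      rw [map_add, map_sub, hPP, sub_self, zero_add, map_zero] at h2
      rw [← hPD _ (map_mem_divPart f (hP x))]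
      exact h2
    have h2 : P x = 0 := by
      have h3 := congrArg g h1
      rw [hgf, map_zero] at h3
      exact htf d hd _ h3
    rw [h1, add_zero, h2, sub_zero] at hx
    have h3 : F x ∈ divPart M := by
      rw [sub_eq_zero.mp hx]
      exact hP _
    have h4 : x ∈ divPart M := by
      have h5 := sub_mem (map_mem_divPart G h3) (hGF x)
      simpa using h5
    rw [← hPD x h4, h2]
  have hsurj : Function.Surjective Φ := by
    intro y
    obtain ⟨z, hz, hdz⟩ := exists_div htf (hP y) d hd
    set xD := g z with hxD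
    have hxD' : xD ∈ divPart M := map_mem_divPart g hz
    set xA := G y - P (G y) with hxA
    have hPxA : P xA = 0 := by
      rw [hxA, map_sub, hPP, sub_self]
    refine ⟨xA + xD, ?_⟩
    rw [hΦ]
    have hPx : P (xA + xD) = xD := by
      rw [map_add, hPxA, zero_add, hPD _ hxD']
    rw [hPx, add_sub_cancel_right]
    have e1 : f xD = P y := by
      rw [hxD, hfg, hdz]
    -- F xA = F (G y) - F (P (G y)) = y + div
    have e2 : F xA - y ∈ divPart M := by
      have : F xA - y = (F (G y) - y) - F (P (G y)) := by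
        rw [hxA, map_sub]; abel
      rw [this]
      exact sub_mem (hFG y) (map_mem_divPart F (hP _))
    have e3 : F xA - P (F xA) = y - P y := by
      have := hPD _ e2
      rw [map_sub] at this
      have h6 : F xA - y = P (F xA) - P y := this.symm
      have h7 : F xA = P (F xA) - P y + y := by rw [← h6]; abel
      calc F xA - P (F xA) = (P (F xA) - P y + y) - P (F xA) := by rw [← h7]
        _ = y - P y := by abel
    rw [e1, e3]
    abel
  refine ⟨AddEquiv.ofBijective Φ ⟨hinj, hsurj⟩, fun h x => ?_⟩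
  show Φ (h • x) = φ h • Φ x
  rw [hΦ, hΦ, hPH, ← smul_sub, hF, hf]
  have e1 : P (φ h • F (x - P x)) = φ h • P (F (x - P x)) := hPH _ _
  rw [e1, ← smul_sub, ← smul_add]

end Divisible

end Pool.Agent.H88.Cryst
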