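import Pool.Agent.H88.Cryst.Transfer
import Pool.Agent.H88.Cryst.Phi

set_option autoImplicit false

/-!
The example: `T = ℤ⁸ ≅ ℤ[ζ₂₀]` (in the basis `1, ζ, …, ζ⁷`) and the group `H` of order 80 generated
by `Z` (multiplication by `ζ`) and `S` (the Galois automorphism `ζ ↦ ζ³`).
-/

namespace Pool.Agent.H88.Cryst

open Filter Matrix

/-- Invertible integer matrices act on integer vectors. -/
instance matAction (n : ℕ) :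
    DistribMulAction (Matrix (Fin n) (Fin n) ℤ)ˣ (Fin n → ℤ) where
  smul M v := (M : Matrix (Fin n) (Fin n) ℤ).mulVec v
  one_smul v := by
    show ((1 : (Matrix (Fin n) (Fin n) ℤ)ˣ) : Matrix (Fin n) (Fin n) ℤ).mulVec v = v
    simp
  mul_smul M N v := by
    show ((M * N : (Matrix (Fin n) (Fin n) ℤ)ˣ) : Matrix (Fin n) (Fin n) ℤ).mulVec v =
      (M : Matrix (Fin n) (Fin n) ℤ).mulVec ((N : Matrix (Fin n) (Fin n) ℤ).mulVec v)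
    simp
  smul_zero M := Matrix.mulVec_zero _
  smul_add M v w := Matrix.mulVec_add _ _ _

theorem matAction_def {n : ℕ} (M : (Matrix (Fin n) (Fin n) ℤ)ˣ) (v : Fin n → ℤ) :
    M • v = (M : Matrix (Fin n) (Fin n) ℤ).mulVec v := rfl

theorem subgroup_smul_def {n : ℕ} (H : Subgroup (Matrix (Fin n) (Fin n) ℤ)ˣ) (M : H)
    (v : Fin n → ℤ) :
    M • v = ((M : (Matrix (Fin n) (Fin n) ℤ)ˣ) : Matrix (Fin n) (Fin n) ℤ).mulVec v := rfl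

/-- 8 × 8 integer matrices -/
abbrev M8 : Type := Matrix (Fin 8) (Fin 8) ℤ

/-- multiplication by `ζ = ζ₂₀` -/
def mZ : M8 := !![0, 0, 0, 0, 0, 0, 0, -1; 1, 0, 0, 0, 0, 0, 0, 0; 0, 1, 0, 0, 0, 0, 0, 1;
  0, 0, 1, 0, 0, 0, 0, 0; 0, 0, 0, 1, 0, 0, 0, -1; 0, 0, 0, 0, 1, 0, 0, 0; 0, 0, 0, 0, 0, 1, 0, 1;
  0, 0, 0, 0, 0, 0, 1, 0]

/-- inverse of `mZ` -/
def mZi : M8 := !![0, 1, 0, 0, 0, 0, 0, 0; 1, 0, 1, 0, 0, 0, 0, 0; 0, 0, 0, 1, 0, 0, 0, 0;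
  -1, 0, 0, 0, 1, 0, 0, 0; 0, 0, 0, 0, 0, 1, 0, 0; 1, 0, 0, 0, 0, 0, 1, 0; 0, 0, 0, 0, 0, 0, 0, 1;
  -1, 0, 0, 0, 0, 0, 0, 0]

/-- the Galois automorphism `ζ ↦ ζ³` -/
def mS : M8 := !![1, 0, 0, 0, 0, 0, 1, 0; 0, 0, 0, -1, 0, 0, 0, 1; 0, 0, 0, 0, -1, 0, -1, 0;
  0, 1, 0, 1, 0, 0, 0, 0; 0, 0, 0, 0, 0, 0, 1, 0; 0, 0, 0, -1, 0, -1, 0, 0;
  0, 0, 1, 0, 0, 0, -1, 0; 0, 0, 0, 1, 0, 0, 0, 0]

/-- inverse of `mS` -/
def mSi : M8 := !![1, 0, 0, 0, -1, 0, 0, 0; 0, 0, 0, 1, 0, 0, 0, -1; 0, 0, 0, 0, 1, 0, 1, 0;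
  0, 0, 0, 0, 0, 0, 0, 1; 0, 0, -1, 0, -1, 0, 0, 0; 0, 0, 0, 0, 0, -1, 0, -1;
  0, 0, 0, 0, 1, 0, 0, 0; 0, 1, 0, 0, 0, 0, 0, 1]

/-- multiplication by `i = ζ⁵` -/
def mI : M8 := !![0, 0, 0, -1, 0, -1, 0, 0; 0, 0, 0, 0, -1, 0, -1, 0; 0, 0, 0, 1, 0, 0, 0, -1;
  0, 0, 0, 0, 1, 0, 0, 0; 0, 0, 0, -1, 0, 0, 0, 0; 1, 0, 0, 0, -1, 0, 0, 0;
  0, 1, 0, 1, 0, 0, 0, 0; 0, 0, 1, 0, 1, 0, 0, 0]

/-- multiplication by `1 + i` -/
def mH1 : M8 := !![1, 0, 0, -1, 0, -1, 0, 0; 0, 1, 0, 0, -1, 0, -1, 0; 0, 0, 1, 1, 0, 0, 0, -1;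
  0, 0, 0, 1, 1, 0, 0, 0; 0, 0, 0, -1, 1, 0, 0, 0; 1, 0, 0, 0, -1, 1, 0, 0; 0, 1, 0, 1, 0, 0, 1, 0;
  0, 0, 1, 0, 1, 0, 0, 1]

/-- multiplication by `i + (1 - i) w`, `w = (1 + √5) / 2` -/
def mH2 : M8 := !![1, 1, 1, 0, 0, 0, -1, 1; 0, 1, 1, 1, 0, 0, 0, -1; 0, -1, 0, 1, 1, 0, 1, -1;
  -1, 0, -1, 0, 1, 1, 0, 1; 1, 0, 1, -1, 0, 1, 0, 1; 1, 1, 0, 1, -1, 0, 1, 0;
  -1, 0, 0, 0, 1, -1, 1, 0; -1, -1, 0, 0, 0, 1, -1, 1]

/-- multiplication by `1 - i` -/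
def mG1 : M8 := !![1, 0, 0, 1, 0, 1, 0, 0; 0, 1, 0, 0, 1, 0, 1, 0; 0, 0, 1, -1, 0, 0, 0, 1;
  0, 0, 0, 1, -1, 0, 0, 0; 0, 0, 0, 1, 1, 0, 0, 0; -1, 0, 0, 0, 1, 1, 0, 0;
  0, -1, 0, -1, 0, 0, 1, 0; 0, 0, -1, 0, -1, 0, 0, 1]

/-- multiplication by `-i + (1 + i) w` -/
def mG2 : M8 := !![1, -1, 1, 0, 0, 0, -1, -1; 0, 1, -1, 1, 0, 0, 0, -1; 0, 1, 0, -1, 1, 0, 1, 1;
  1, 0, 1, 0, -1, 1, 0, 1; 1, 0, 1, 1, 0, -1, 0, -1; -1, 1, 0, 1, 1, 0, -1, 0;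
  -1, 0, 0, 0, 1, 1, 1, 0; 1, -1, 0, 0, 0, 1, 1, 1]

theorem mZ_mZi : mZ * mZi = 1 := by decide +kernel
theorem mZi_mZ : mZi * mZ = 1 := by decide +kernel
theorem mS_mSi : mS * mSi = 1 := by decide +kernel
theorem mSi_mS : mSi * mS = 1 := by decide +kernel
theorem mZ_pow5 : mZ ^ 5 = mI := by decide +kernel
theorem mI_pow4 : mI ^ 4 = 1 := by decide +kernel
theorem mS_pow4 : mS ^ 4 = 1 := by decide +kernel
theorem mS_mul_mZ : mS * mZ = mZ ^ 3 * mS := by decide +kernel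
theorem mH1_comm : mH1 * mZ = mZ * mH1 := by decide +kernel
theorem mH2_comm : mH2 * mZ = mZ * mH2 := by decide +kernel
theorem mH1_mS : mH1 * mS = mI * mS * mH1 := by decide +kernel
theorem mH2_mS : mH2 * mS = mI * mS * mH2 := by decide +kernel
theorem mG1_mH1 : mG1 * mH1 = 2 := by decide +kernel
theorem mH1_mG1 : mH1 * mG1 = 2 := by decide +kernel
theorem mG2_mH2 : mG2 * mH2 = 3 := by decide +kernel
theorem mH2_mG2 : mH2 * mG2 = 3 := by decide +kernel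
theorem mG_mH : mG1 * mH2 + mG2 * mH1 = 2 := by decide +kernel
theorem mH_mG : mH1 * mG2 + mH2 * mG1 = 2 := by decide +kernel

/-- `mZ` as a unit -/
def uZ : M8ˣ := ⟨mZ, mZi, mZ_mZi, mZi_mZ⟩

/-- `mS` as a unit -/
def uS : M8ˣ := ⟨mS, mSi, mS_mSi, mSi_mS⟩

theorem uZ_pow20 : uZ ^ 20 = 1 := by
  ext1
  show mZ ^ 20 = 1
  rw [show (20 : ℕ) = 5 * 4 by norm_num, pow_mul, mZ_pow5, mI_pow4]

theorem uS_pow4 : uS ^ 4 = 1 := by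
  ext1
  exact mS_pow4

theorem uS_mul_uZ : uS * uZ = uZ ^ 3 * uS := by
  ext1
  exact mS_mul_mZ

theorem uS_mul_uZ_pow (a : ℕ) : uS * uZ ^ a = uZ ^ (3 * a) * uS := by
  have h : SemiconjBy uS uZ (uZ ^ 3) := uS_mul_uZ
  have := h.pow_right a
  rw [← pow_mul] at this
  exact this

theorem uS_pow_mul_uZ_pow (c a : ℕ) : uS ^ c * uZ ^ a = uZ ^ (3 ^ c * a) * uS ^ c := by
  induction c with
  | zero => simp
  | succ c ih =>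
    rw [pow_succ' uS c, mul_assoc, ih, ← mul_assoc, uS_mul_uZ_pow, mul_assoc, ← mul_assoc 3,
      ← pow_succ']

/-- The group `H` of order 80 generated by `uZ` and `uS`. -/
def grpH : Subgroup M8ˣ where
  carrier := {g | ∃ a c : ℕ, g = uZ ^ a * uS ^ c}
  one_mem' := ⟨0, 0, by simp⟩
  mul_mem' := by
    rintro g h ⟨a, c, rfl⟩ ⟨a', c', rfl⟩
    refine ⟨a + 3 ^ c * a', c + c', ?_⟩
    rw [mul_assoc, ← mul_assoc (uS ^ c), uS_pow_mul_uZ_pow, pow_add, pow_add]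
    simp only [mul_assoc]
  inv_mem' := by
    rintro g ⟨a, c, rfl⟩
    refine ⟨3 ^ (3 * c) * (19 * a), 3 * c, ?_⟩
    rw [← uS_pow_mul_uZ_pow, inv_eq_iff_mul_eq_one, mul_assoc, ← mul_assoc (uS ^ c), ← pow_add,
      show c + 3 * c = 4 * c by ring, pow_mul, uS_pow4, one_pow, one_mul, ← pow_add,
      show a + 19 * a = 20 * a by ring, pow_mul, uZ_pow20, one_pow]

theorem mem_grpH (g : M8ˣ) : g ∈ grpH ↔ ∃ a c : ℕ, g = uZ ^ a * uS ^ c := Iff.rfl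

theorem uZ_mem : uZ ∈ grpH := ⟨1, 0, by simp⟩
theorem uS_mem : uS ∈ grpH := ⟨0, 1, by simp⟩

instance : Finite grpH := by
  have : (grpH : Set M8ˣ) ⊆ Set.range (fun p : Fin 20 × Fin 4 => uZ ^ (p.1 : ℕ) * uS ^ (p.2 : ℕ)) := by
    rintro g ⟨a, c, rfl⟩
    refine ⟨(⟨a % 20, Nat.mod_lt _ (by norm_num)⟩, ⟨c % 4, Nat.mod_lt _ (by norm_num)⟩), ?_⟩
    show uZ ^ (a % 20) * uS ^ (c % 4) = _
    rw [← pow_eq_pow_mod a uZ_pow20, ← pow_eq_pow_mod c uS_pow4]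
  exact Set.Finite.subset (Set.finite_range _) this

/-- `h'` is the image of `h` under conjugation by `1 + i`. -/
def Rel (h h' : M8ˣ) : Prop := SemiconjBy mH1 (h : M8) (h' : M8) ∧ SemiconjBy mH2 (h : M8) (h' : M8)

theorem Rel.mul {a b a' b' : M8ˣ} (h : Rel a a') (h' : Rel b b') : Rel (a * b) (a' * b') :=
  ⟨by simpa using h.1.mul_right h'.1, by simpa using h.2.mul_right h'.2⟩

theorem Rel.pow {a a' : M8ˣ} (h : Rel a a') (n : ℕ) : Rel (a ^ n) (a' ^ n) :=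
  ⟨by simpa using h.1.pow_right n, by simpa using h.2.pow_right n⟩

theorem rel_Z : Rel uZ uZ := ⟨mH1_comm, mH2_comm⟩

theorem rel_S : Rel uS (uZ ^ 5 * uS) := by
  constructor
  · show mH1 * mS = (mZ ^ 5 * mS) * mH1
    rw [mZ_pow5, mH1_mS]
  · show mH2 * mS = (mZ ^ 5 * mS) * mH2
    rw [mZ_pow5, mH2_mS]

theorem rel_S' : Rel (uZ ^ 15 * uS) uS := by
  have := (rel_Z.pow 15).mul rel_S
  rw [← mul_assoc, ← pow_add, uZ_pow20, one_mul] at this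
  exact this

theorem exists_rel (h : M8ˣ) (hh : h ∈ grpH) : ∃ h' ∈ grpH, Rel h h' := by
  obtain ⟨a, c, rfl⟩ := hh
  refine ⟨uZ ^ a * (uZ ^ 5 * uS) ^ c, ?_, (rel_Z.pow a).mul (rel_S.pow c)⟩
  exact grpH.mul_mem (grpH.pow_mem uZ_mem _)
    (grpH.pow_mem (grpH.mul_mem (grpH.pow_mem uZ_mem _) uS_mem) _)

theorem exists_rel' (h : M8ˣ) (hh : h ∈ grpH) : ∃ h' ∈ grpH, Rel h' h := by
  obtain ⟨a, c, rfl⟩ := hh
  refine ⟨uZ ^ a * (uZ ^ 15 * uS) ^ c, ?_, (rel_Z.pow a).mul (rel_S'.pow c)⟩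
  exact grpH.mul_mem (grpH.pow_mem uZ_mem _)
    (grpH.pow_mem (grpH.mul_mem (grpH.pow_mem uZ_mem _) uS_mem) _)

theorem two_cancel (a b : M8) (h : a * 2 = b * 2) : a = b := by
  ext i j
  have := congrFun (congrFun h i) j
  have e : ∀ x : M8, (x * 2) i j = x i j * 2 := by
    intro x
    have : x * 2 = x + x := mul_two x
    rw [this, Matrix.add_apply]
    ring
  rw [e, e] at this
  omega

theorem Rel.unique {a b c : M8ˣ} (h : Rel a b) (h' : Rel a c) : b = c := by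
  ext1
  apply two_cancel
  have h1 : mH1 * (a : M8) = b * mH1 := h.1
  have h2 : mH1 * (a : M8) = c * mH1 := h'.1
  rw [← mH1_mG1, ← mul_assoc, ← mul_assoc, ← h1, ← h2]

theorem Rel.unique' {a b c : M8ˣ} (h : Rel a c) (h' : Rel b c) : a = b := by
  ext1
  have h1 : mH1 * (a : M8) = c * mH1 := h.1
  have h2 : mH1 * (b : M8) = c * mH1 := h'.1
  have h3 : (2 : M8) * a = 2 * b := by
    rw [← mG1_mH1, mul_assoc, mul_assoc, h1, h2]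
  apply two_cancel
  rw [mul_two, mul_two]
  rw [two_mul, two_mul] at h3
  exact h3

/-- The automorphism of `H` given by conjugation by `1 + i`. -/
theorem exists_phi : ∃ φ : grpH ≃* grpH, ∀ h : grpH, Rel (h : M8ˣ) (φ h : M8ˣ) := by
  have hex : ∀ h : grpH, ∃ h' : grpH, Rel (h : M8ˣ) (h' : M8ˣ) := by
    intro h
    obtain ⟨h', hh', hr⟩ := exists_rel h h.2
    exact ⟨⟨h', hh'⟩, hr⟩
  choose f hf using hex
  let F : grpH →* grpH := MonoidHom.mk' f (by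
    intro a b
    ext1
    exact Rel.unique (hf (a * b)) ((hf a).mul (hf b)))
  have hbij : Function.Bijective F := by
    constructor
    · intro a b hab
      ext1
      have h1 : Rel (a : M8ˣ) (f a : M8ˣ) := hf a
      have h2 : Rel (b : M8ˣ) (f b : M8ˣ) := hf b
      have h3 : f a = f b := hab
      rw [h3] at h1
      exact h1.unique' h2
    · intro b
      obtain ⟨a, ha, hr⟩ := exists_rel' b b.2
      refine ⟨⟨a, ha⟩, ?_⟩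
      ext1
      exact Rel.unique (hf ⟨a, ha⟩) hr
  exact ⟨MulEquiv.ofBijective F hbij, fun h => hf h⟩

end Pool.Agent.H88.Cryst
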