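import Pool.Agent.H88.Cryst.NonConj

set_option autoImplicit false

/-!
Every finite group `H` of invertible integer matrices gives rise to a split crystallographic group
`ℤⁿ ⋊ H`.
-/

namespace Pool.Agent.H88.Cryst

open Matrix
open scoped MatrixOrder

variable {n : ℕ}

/-- The real matrix of an integer matrix. -/
def Rm (A : Matrix (Fin n) (Fin n) ℤ) : Matrix (Fin n) (Fin n) ℝ := A.map (Int.castRingHom ℝ)

theorem Rm_mul (A B : Matrix (Fin n) (Fin n) ℤ) : Rm (A * B) = Rm A * Rm B := by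
  unfold Rm
  exact Matrix.map_mul

theorem Rm_one : Rm (1 : Matrix (Fin n) (Fin n) ℤ) = 1 := by
  unfold Rm
  simp

/-- Existence of an invariant Euclidean structure. -/
theorem exists_invariant (H : Subgroup (Matrix (Fin n) (Fin n) ℤ)ˣ) [Finite H] :
    ∃ β : (Fin n → ℝ) ≃ₗ[ℝ] EuclideanSpace ℝ (Fin n),
      ∀ h ∈ H, ∀ x : Fin n → ℝ, ‖β ((Rm (h : Matrix (Fin n) (Fin n) ℤ)).mulVec x)‖ = ‖β x‖ := by
  classical
  cases nonempty_fintype H
  set Q : Matrix (Fin n) (Fin n) ℝ := ∑ h : H, (Rm ((h : (Matrix (Fin n) (Fin n) ℤ)ˣ) :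
    Matrix (Fin n) (Fin n) ℤ))ᵀ * Rm ((h : (Matrix (Fin n) (Fin n) ℤ)ˣ) :
    Matrix (Fin n) (Fin n) ℤ) with hQ
  have hQx : ∀ x : Fin n → ℝ, x ⬝ᵥ Q.mulVec x = ∑ h : H,
      (Rm ((h : (Matrix (Fin n) (Fin n) ℤ)ˣ) : Matrix (Fin n) (Fin n) ℤ)).mulVec x ⬝ᵥ
      (Rm ((h : (Matrix (Fin n) (Fin n) ℤ)ˣ) : Matrix (Fin n) (Fin n) ℤ)).mulVec x := by
    intro x
    rw [hQ, Matrix.sum_mulVec, dotProduct_sum]
    apply Finset.sum_congr rfl
    intro h _
    rw [← Matrix.mulVec_mulVec, Matrix.dotProduct_mulVec, Matrix.vecMul_transpose]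
  have hpsd : Q.PosSemidef := by
    rw [hQ]
    apply Matrix.posSemidef_sum
    intro h _
    exact Matrix.posSemidef_conjTranspose_mul_self _
  obtain ⟨B, hB⟩ := CStarAlgebra.nonneg_iff_eq_star_mul_self.mp hpsd.nonneg
  have hBx : ∀ x : Fin n → ℝ, B.mulVec x ⬝ᵥ B.mulVec x = x ⬝ᵥ Q.mulVec x := by
    intro x
    rw [hB, ← Matrix.mulVec_mulVec, Matrix.dotProduct_mulVec x]
    congr 1
    exact (Matrix.vecMul_transpose B x).symm
  have hnn : ∀ y : Fin n → ℝ, 0 ≤ y ⬝ᵥ y := by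
    intro y
    exact Finset.sum_nonneg (fun i _ => mul_self_nonneg _)
  have hinj : Function.Injective (Matrix.mulVecLin B) := by
    rw [injective_iff_map_eq_zero]
    intro x hx
    have h1 : B.mulVec x = 0 := hx
    have h2 := hBx x
    rw [h1, hQx] at h2
    simp only [dotProduct_zero] at h2
    have h3 := (Finset.sum_eq_zero_iff_of_nonneg (fun h _ => hnn _)).mp h2.symm (1 : H)
      (Finset.mem_univ _)
    simp only [OneMemClass.coe_one, Units.val_one, Rm_one, Matrix.one_mulVec] at h3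
    exact dotProduct_self_eq_zero.mp h3
  let b0 : (Fin n → ℝ) ≃ₗ[ℝ] (Fin n → ℝ) := LinearEquiv.ofInjectiveEndo (Matrix.mulVecLin B) hinj
  refine ⟨b0.trans (WithLp.linearEquiv 2 ℝ (Fin n → ℝ)).symm, ?_⟩
  have hnorm : ∀ x : Fin n → ℝ,
      ‖(b0.trans (WithLp.linearEquiv 2 ℝ (Fin n → ℝ)).symm) x‖ ^ 2 = x ⬝ᵥ Q.mulVec x := by
    intro x
    rw [EuclideanSpace.norm_sq_eq, ← hBx]
    unfold dotProduct
    apply Finset.sum_congr rfl
    intro i _
    have : ((b0.trans (WithLp.linearEquiv 2 ℝ (Fin n → ℝ)).symm) x) i = B.mulVec x i := rfl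
    rw [this, Real.norm_eq_abs, sq_abs, sq]
  intro h hh x
  have h1 : ‖(b0.trans (WithLp.linearEquiv 2 ℝ (Fin n → ℝ)).symm)
      ((Rm (h : Matrix (Fin n) (Fin n) ℤ)).mulVec x)‖ ^ 2 =
      ‖(b0.trans (WithLp.linearEquiv 2 ℝ (Fin n → ℝ)).symm) x‖ ^ 2 := by
    rw [hnorm, hnorm, hQx, hQx]
    refine Fintype.sum_equiv (Equiv.mulRight (⟨h, hh⟩ : H)) _ _ (fun g => ?_)
    have : (Rm (((g : H) : (Matrix (Fin n) (Fin n) ℤ)ˣ) : Matrix (Fin n) (Fin n) ℤ)).mulVec
        ((Rm (h : Matrix (Fin n) (Fin n) ℤ)).mulVec x) =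
        (Rm (((Equiv.mulRight (⟨h, hh⟩ : H) g : H) : (Matrix (Fin n) (Fin n) ℤ)ˣ) :
          Matrix (Fin n) (Fin n) ℤ)).mulVec x := by
      rw [Matrix.mulVec_mulVec, ← Rm_mul]
      rfl
    rw [this]
  exact (sq_eq_sq₀ (norm_nonneg _) (norm_nonneg _)).mp h1

/-- an integer vector as a real vector -/
def rv (t : Fin n → ℤ) : Fin n → ℝ := fun i => (t i : ℝ)

theorem rv_add (s t : Fin n → ℤ) : rv (s + t) = rv s + rv t := by
  funext i
  simp [rv]

theorem rv_zero : rv (0 : Fin n → ℤ) = 0 := by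
  funext i
  simp [rv]

theorem rv_mulVec (A : Matrix (Fin n) (Fin n) ℤ) (t : Fin n → ℤ) :
    rv (A.mulVec t) = (Rm A).mulVec (rv t) := by
  funext i
  simp [rv, Rm, Matrix.mulVec, dotProduct]

section Psi

variable (H : Subgroup (Matrix (Fin n) (Fin n) ℤ)ˣ)
  (β : (Fin n → ℝ) ≃ₗ[ℝ] EuclideanSpace ℝ (Fin n))
  (hβ : ∀ h ∈ H, ∀ x : Fin n → ℝ, ‖β ((Rm (h : Matrix (Fin n) (Fin n) ℤ)).mulVec x)‖ = ‖β x‖)

/-- The affine map `x ↦ β (h (β⁻¹ x)) + β t`. -/
noncomputable def aff (s : SD (Fin n → ℤ) H) (x : EuclideanSpace ℝ (Fin n)) :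
    EuclideanSpace ℝ (Fin n) :=
  β ((Rm ((s.h : (Matrix (Fin n) (Fin n) ℤ)ˣ) : Matrix (Fin n) (Fin n) ℤ)).mulVec (β.symm x)) +
    β (rv s.t)

theorem aff_mul (s s' : SD (Fin n → ℤ) H) (x : EuclideanSpace ℝ (Fin n)) :
    aff H β (s * s') x = aff H β s (aff H β s' x) := by
  unfold aff
  rw [SD.mul_h, SD.mul_t, rv_add, map_add, map_add, LinearEquiv.symm_apply_apply,
    LinearEquiv.symm_apply_apply, Matrix.mulVec_add, map_add, Matrix.mulVec_mulVec, ← Rm_mul,
    subgroup_smul_def, rv_mulVec]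
  have : (((s.h * s'.h : H) : (Matrix (Fin n) (Fin n) ℤ)ˣ) : Matrix (Fin n) (Fin n) ℤ) =
      ((s.h : (Matrix (Fin n) (Fin n) ℤ)ˣ) : Matrix (Fin n) (Fin n) ℤ) *
      ((s'.h : (Matrix (Fin n) (Fin n) ℤ)ˣ) : Matrix (Fin n) (Fin n) ℤ) := rfl
  rw [this]
  abel

theorem aff_one (x : EuclideanSpace ℝ (Fin n)) : aff H β 1 x = x := by
  unfold aff
  rw [SD.one_h, SD.one_t, rv_zero, map_zero, add_zero]
  have : (((1 : H) : (Matrix (Fin n) (Fin n) ℤ)ˣ) : Matrix (Fin n) (Fin n) ℤ) = 1 := rfl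
  rw [this, Rm_one, Matrix.one_mulVec, LinearEquiv.apply_symm_apply]

include hβ in
theorem aff_isometry (s : SD (Fin n → ℤ) H) : Isometry (aff H β s) := by
  apply Isometry.of_dist_eq
  intro x y
  unfold aff
  rw [dist_add_right, dist_eq_norm, ← map_sub, ← Matrix.mulVec_sub, ← map_sub, hβ _ s.h.2,
    LinearEquiv.apply_symm_apply, dist_eq_norm]

/-- The isometry attached to an element of `ℤⁿ ⋊ H`. -/
noncomputable def psi : SD (Fin n → ℤ) H →* Isom n where
  toFun s := IsometryEquiv.mk' (aff H β s) (aff H β s⁻¹)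
    (fun x => by rw [← aff_mul, mul_inv_cancel, aff_one]) (aff_isometry H β hβ s)
  map_one' := by
    ext1 x
    exact aff_one H β x
  map_mul' s s' := by
    ext1 x
    exact aff_mul H β s s' x

theorem psi_apply (s : SD (Fin n → ℤ) H) (x : EuclideanSpace ℝ (Fin n)) :
    psi H β hβ s x = aff H β s x := rfl

theorem rv_injective : Function.Injective (rv : (Fin n → ℤ) → (Fin n → ℝ)) := by
  intro s t h
  funext i
  have h1 : (s i : ℝ) = (t i : ℝ) := congrFun h i
  exact_mod_cast h1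

theorem Rm_injective : Function.Injective (Rm : Matrix (Fin n) (Fin n) ℤ → _) := by
  intro A B h
  ext i j
  have := congrFun (congrFun h i) j
  simp only [Rm, Matrix.map_apply, Int.coe_castRingHom] at this
  exact_mod_cast this

theorem aff_zero (s : SD (Fin n → ℤ) H) : aff H β s 0 = β (rv s.t) := by
  unfold aff
  rw [map_zero, Matrix.mulVec_zero, map_zero, zero_add]

/-- an element acting as a translation has trivial linear part -/
theorem h_eq_one_of_translation (s : SD (Fin n → ℤ) H) (v : EuclideanSpace ℝ (Fin n))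
    (hv : ∀ x, aff H β s x = x + v) : s.h = 1 ∧ v = β (rv s.t) := by
  have h0 : v = β (rv s.t) := by
    have := hv 0
    rw [aff_zero, zero_add] at this
    exact this.symm
  refine ⟨?_, h0⟩
  ext1
  ext1
  apply Rm_injective
  apply Matrix.ext_of_mulVec_single
  intro j
  have h1 := hv (β (Pi.single j 1))
  rw [h0] at h1
  unfold aff at h1
  rw [LinearEquiv.symm_apply_apply] at h1
  have h2 := β.injective (add_right_cancel h1)
  rw [h2]
  have : (((1 : H) : (Matrix (Fin n) (Fin n) ℤ)ˣ) : Matrix (Fin n) (Fin n) ℤ) = 1 := rfl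
  rw [this, Rm_one, Matrix.one_mulVec]

theorem psi_injective : Function.Injective (psi H β hβ) := by
  rw [injective_iff_map_eq_one]
  intro s hs
  have h1 : ∀ x, aff H β s x = x + 0 := by
    intro x
    have := congrArg (fun g : Isom n => g x) hs
    rw [add_zero]
    exact this
  obtain ⟨h2, h3⟩ := h_eq_one_of_translation H β s 0 h1
  ext1
  · have : rv s.t = rv (0 : Fin n → ℤ) := by
      apply β.injective
      rw [← h3, rv_zero, map_zero]
    exact rv_injective this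
  · exact h2

theorem aff_translation (t : Fin n → ℤ) (x : EuclideanSpace ℝ (Fin n)) :
    aff H β ⟨t, 1⟩ x = x + β (rv t) := by
  unfold aff
  have : (((1 : H) : (Matrix (Fin n) (Fin n) ℤ)ˣ) : Matrix (Fin n) (Fin n) ℤ) = 1 := rfl
  show β ((Rm (((1 : H) : (Matrix (Fin n) (Fin n) ℤ)ˣ) : Matrix (Fin n) (Fin n) ℤ)).mulVec
    (β.symm x)) + β (rv t) = _
  rw [this, Rm_one, Matrix.one_mulVec, LinearEquiv.apply_symm_apply]

/-- bounded integer vectors are finite in number -/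
theorem finite_bounded (C : ℝ) : {t : Fin n → ℤ | ‖β (rv t)‖ ≤ C}.Finite := by
  set γ : EuclideanSpace ℝ (Fin n) →L[ℝ] (Fin n → ℝ) :=
    LinearMap.toContinuousLinearMap β.symm.toLinearMap with hγ
  set K : ℤ := ⌈‖γ‖ * C⌉ with hK
  apply Set.Finite.subset (Set.finite_Icc (fun _ : Fin n => -K) (fun _ => K))
  intro t ht
  have h1 : ‖rv t‖ ≤ ‖γ‖ * C := by
    have h2 : rv t = γ (β (rv t)) := (LinearEquiv.symm_apply_apply β (rv t)).symm
    rw [h2]
    calc ‖γ (β (rv t))‖ ≤ ‖γ‖ * ‖β (rv t)‖ := γ.le_opNorm _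
      _ ≤ ‖γ‖ * C := by
          apply mul_le_mul_of_nonneg_left ht (norm_nonneg _)
  have h3 : ∀ i, |(t i : ℝ)| ≤ K := by
    intro i
    calc |(t i : ℝ)| = ‖rv t i‖ := rfl
      _ ≤ ‖rv t‖ := norm_le_pi_norm _ i
      _ ≤ ‖γ‖ * C := h1
      _ ≤ K := Int.le_ceil _
  rw [Set.mem_Icc]
  constructor
  · intro i
    have := (abs_le.mp (h3 i)).1
    show -K ≤ t i
    exact_mod_cast this
  · intro i
    have := (abs_le.mp (h3 i)).2
    show t i ≤ K
    exact_mod_cast this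

theorem range_discrete [Finite H] (x : EuclideanSpace ℝ (Fin n)) (r : ℝ) :
    {g : Isom n | g ∈ (psi H β hβ).range ∧ dist (g x) x ≤ r}.Finite := by
  have h1 : {g : Isom n | g ∈ (psi H β hβ).range ∧ dist (g x) x ≤ r} ⊆
      ⋃ h : H, (fun t => psi H β hβ ⟨t, h⟩) '' {t : Fin n → ℤ | ‖β (rv t)‖ ≤
        r + ‖x - β ((Rm ((h : (Matrix (Fin n) (Fin n) ℤ)ˣ) :
          Matrix (Fin n) (Fin n) ℤ)).mulVec (β.symm x))‖} := by
    rintro g ⟨⟨s, rfl⟩, hg⟩
    rw [Set.mem_iUnion]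
    refine ⟨s.h, s.t, ?_, rfl⟩
    rw [psi_apply, dist_eq_norm] at hg
    show ‖β (rv s.t)‖ ≤ _
    have e : β (rv s.t) = (aff H β s x - x) + (x - β ((Rm ((s.h : (Matrix (Fin n) (Fin n) ℤ)ˣ) :
          Matrix (Fin n) (Fin n) ℤ)).mulVec (β.symm x))) := by
      unfold aff
      abel
    rw [e]
    exact (norm_add_le _ _).trans (by linarith)
  exact Set.Finite.subset (Set.finite_iUnion (fun h => (finite_bounded β _).image _)) h1

theorem range_cocompact : ∃ K : Set (EuclideanSpace ℝ (Fin n)), IsCompact K ∧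
    ∀ x, ∃ g ∈ (psi H β hβ).range, g x ∈ K := by
  refine ⟨β '' (Set.Icc 0 1), ?_, ?_⟩
  · apply isCompact_Icc.image
    exact LinearMap.continuous_of_finiteDimensional β.toLinearMap
  · intro x
    set t : Fin n → ℤ := fun i => -⌊β.symm x i⌋ with ht
    refine ⟨psi H β hβ ⟨t, 1⟩, ⟨_, rfl⟩, β.symm x + rv t, ?_, ?_⟩
    · rw [Set.mem_Icc]
      constructor
      · intro i
        simp only [Pi.add_apply, Pi.zero_apply, rv, ht]
        push_cast
        have := Int.floor_le (β.symm x i)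
        linarith
      · intro i
        simp only [Pi.add_apply, Pi.one_apply, rv, ht]
        push_cast
        have := Int.lt_floor_add_one (β.symm x i)
        linarith
    · rw [psi_apply, aff_translation, map_add, LinearEquiv.apply_symm_apply]

theorem range_isCrystallographic [Finite H] : IsCrystallographic (psi H β hβ).range :=
  ⟨range_discrete H β hβ, range_cocompact H β hβ⟩

/-- The complement `H` of the translation subgroup. -/
noncomputable def iotaH : H →* SD (Fin n → ℤ) H where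
  toFun h := ⟨0, h⟩
  map_one' := rfl
  map_mul' a b := by
    ext1
    · show (0 : Fin n → ℤ) = 0 + a • (0 : Fin n → ℤ)
      simp
    · rfl

theorem range_isSplit : IsSplit (psi H β hβ).range := by
  refine ⟨((psi H β hβ).comp (iotaH H)).range, ?_, ?_, ?_⟩
  · rintro g ⟨h, rfl⟩
    exact ⟨_, rfl⟩
  · rw [eq_bot_iff]
    rintro g ⟨⟨h, rfl⟩, ⟨_, v, hv⟩⟩
    obtain ⟨h1, _⟩ := h_eq_one_of_translation H β (iotaH H h) v hv
    have h2 : h = 1 := h1
    rw [h2, map_one]
    exact Subgroup.mem_bot.mpr rfl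
  · rintro g ⟨s, rfl⟩
    refine ⟨psi H β hβ ⟨s.t, 1⟩, ⟨⟨_, rfl⟩, β (rv s.t), aff_translation H β s.t⟩,
      psi H β hβ (iotaH H s.h), ⟨s.h, rfl⟩, ?_⟩
    rw [← map_mul]
    congr 1
    ext1
    · show s.t = s.t + (1 : H) • (0 : Fin n → ℤ)
      simp
    · show s.h = 1 * s.h
      simp

/-- a rational vector as a real vector -/
def qv (t : Fin n → ℚ) : Fin n → ℝ := fun i => (t i : ℝ)

/-- the rational matrix of an integer matrix -/
def Qm (A : Matrix (Fin n) (Fin n) ℤ) : Matrix (Fin n) (Fin n) ℚ := A.map (Int.castRingHom ℚ)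

theorem qv_mulVec (A : Matrix (Fin n) (Fin n) ℤ) (t : Fin n → ℚ) :
    qv ((Qm A).mulVec t) = (Rm A).mulVec (qv t) := by
  funext i
  simp [qv, Rm, Qm, Matrix.mulVec, dotProduct]

/-- The rational vector space spanned by the lattice, parametrised by `ℚⁿ`. -/
noncomputable def gam : (Fin n → ℚ) →ₗ[ℚ] EuclideanSpace ℝ (Fin n) where
  toFun t := β (qv t)
  map_add' s t := by
    rw [← map_add]
    congr 1
    funext i
    simp [qv]
  map_smul' c t := by
    have : qv (c • t) = (c : ℝ) • qv t := by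
      funext i
      simp [qv]
    rw [this, map_smul]
    rfl

theorem gam_apply (t : Fin n → ℚ) : gam β t = β (qv t) := rfl

theorem span_translationVectors :
    Submodule.span ℚ (translationVectors (psi H β hβ).range) = LinearMap.range (gam β) := by
  apply le_antisymm
  · rw [Submodule.span_le]
    rintro v ⟨g, ⟨s, rfl⟩, hg⟩
    obtain ⟨_, h2⟩ := h_eq_one_of_translation H β s v hg
    refine ⟨fun i => (s.t i : ℚ), ?_⟩
    rw [h2, gam_apply]
    have e : qv (fun i => (s.t i : ℚ)) = rv s.t := by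
      funext i
      simp [qv, rv]
    rw [e]
  · rintro v ⟨t, rfl⟩
    have e : t = ∑ i, t i • (Pi.single i (1 : ℚ) : Fin n → ℚ) := by
      funext j
      simp [Finset.sum_apply, Pi.single_apply]
    rw [e, map_sum]
    apply Submodule.sum_mem
    intro i _
    rw [map_smul]
    apply Submodule.smul_mem
    apply Submodule.subset_span
    refine ⟨psi H β hβ ⟨Pi.single i 1, 1⟩, ⟨_, rfl⟩, fun x => ?_⟩
    rw [psi_apply, aff_translation, gam_apply]
    congr 2
    funext j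
    by_cases hj : j = i
    · subst hj; simp [qv, rv]
    · simp [qv, rv, hj]

theorem range_isIrreducible
    (hirr : ∀ W : Submodule ℚ (Fin n → ℚ),
      (∀ h ∈ H, ∀ w ∈ W, (Qm (h : Matrix (Fin n) (Fin n) ℤ)).mulVec w ∈ W) → W = ⊥ ∨ W = ⊤) :
    IsIrreducible (psi H β hβ).range := by
  intro W hW hinv
  rw [span_translationVectors] at hW ⊢
  have hcomap : W = (W.comap (gam β)).map (gam β) := by
    rw [Submodule.map_comap_eq, inf_eq_right.mpr hW]
  have h1 := hirr (W.comap (gam β)) (by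
    intro h hh w hw
    rw [Submodule.mem_comap] at hw ⊢
    have h2 := hinv (psi H β hβ ⟨0, ⟨h, hh⟩⟩) ⟨_, rfl⟩ _ hw
    rw [psi_apply, psi_apply, aff_zero] at h2
    unfold aff at h2
    rw [add_sub_cancel_right, gam_apply, LinearEquiv.symm_apply_apply] at h2
    rw [gam_apply, qv_mulVec]
    exact h2)
  rcases h1 with h1 | h1
  · left
    rw [hcomap, h1, Submodule.map_bot]
  · right
    rw [hcomap, h1, Submodule.map_top]

end Psi

end Pool.Agent.H88.Cryst
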