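import Pool.Agent.H88.Cryst.Geometry

set_option autoImplicit false

/-!
Irreducibility of the example over `ℚ`.
-/

namespace Pool.Agent.H88.Cryst

open Matrix Polynomial

theorem cyclotomic_10 : cyclotomic 10 ℚ = X ^ 4 - X ^ 3 + X ^ 2 - X + 1 := by
  have h1 := cyclotomic_expand_eq_cyclotomic_mul (p := 2) (n := 5) Nat.prime_two (by norm_num) ℚ
  have : Fact (Nat.Prime 5) := ⟨by norm_num⟩
  rw [cyclotomic_prime] at h1
  simp only [Finset.sum_range_succ, Finset.sum_range_zero, map_add, map_pow, expand_X,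
    zero_add, pow_zero, map_one, pow_one] at h1
  have h2 : (1 + X + X ^ 2 + X ^ 3 + X ^ 4 : ℚ[X]) ≠ 0 := by
    intro h
    have := congrArg (fun p : ℚ[X] => p.eval 1) h
    simp at this
    norm_num at this
  apply mul_right_cancel₀ h2
  rw [show (10 : ℕ) = 5 * 2 by norm_num, ← h1]
  ring

theorem cyclotomic_20 : cyclotomic 20 ℚ = X ^ 8 - X ^ 6 + X ^ 4 - X ^ 2 + 1 := by
  have h1 := cyclotomic_expand_eq_cyclotomic (p := 2) (n := 10) Nat.prime_two (by norm_num) ℚ
  rw [show (20 : ℕ) = 10 * 2 by norm_num, ← h1, cyclotomic_10]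
  simp only [map_add, map_sub, map_pow, expand_X, map_one]
  ring

/-- If `p` is irreducible of degree `dim V` and `p(f) = 0`, then `V` has no proper nonzero
`f`-stable subspace. -/
theorem eq_bot_or_eq_top_of_irreducible {V : Type*} [AddCommGroup V] [Module ℚ V]
    [FiniteDimensional ℚ V] (f : V →ₗ[ℚ] V) (p : ℚ[X]) (hp : Irreducible p)
    (hdeg : p.natDegree = Module.finrank ℚ V) (hpf : aeval f p = 0)
    (W : Submodule ℚ V) (hW : ∀ w ∈ W, f w ∈ W) : W = ⊥ ∨ W = ⊤ := by
  by_cases hbot : W = ⊥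
  · exact Or.inl hbot
  right
  obtain ⟨w, hwW, hw0⟩ := (Submodule.ne_bot_iff W).mp hbot
  -- the evaluation map
  let ev : (degreeLT ℚ (Module.finrank ℚ V)) →ₗ[ℚ] V :=
    { toFun := fun q => aeval f (q : ℚ[X]) w
      map_add' := fun q r => by simp
      map_smul' := fun c q => by simp }
  have hmem : ∀ q : ℚ[X], aeval f q w ∈ W := by
    intro q
    have hpow : ∀ k : ℕ, (f ^ k) w ∈ W := by
      intro k
      induction k with
      | zero => simpa using hwW
      | succ k ih =>
        rw [pow_succ', Module.End.mul_apply]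
        exact hW _ ih
    rw [aeval_eq_sum_range]
    rw [LinearMap.sum_apply]
    apply Submodule.sum_mem
    intro i _
    rw [LinearMap.smul_apply]
    exact W.smul_mem _ (hpow i)
  have hinj : Function.Injective ev := by
    rw [injective_iff_map_eq_zero]
    intro q hq
    by_contra hq0
    have hq0' : (q : ℚ[X]) ≠ 0 := fun h => hq0 (Subtype.ext h)
    have hqdeg : (q : ℚ[X]).degree < (Module.finrank ℚ V : ℕ) := mem_degreeLT.mp q.2
    have hcop : IsCoprime p (q : ℚ[X]) := by
      rw [hp.coprime_iff_not_dvd]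
      intro hdvd
      have h1 := Polynomial.degree_le_of_dvd hdvd hq0'
      rw [Polynomial.degree_eq_natDegree hp.ne_zero, hdeg] at h1
      exact absurd hqdeg (not_lt.mpr h1)
    obtain ⟨a, b, hab⟩ := hcop
    have h1 := congrArg (fun r : ℚ[X] => aeval f r w) hab
    simp only [map_add, map_mul, hpf, mul_zero, zero_add, map_one, Module.End.one_apply,
      Module.End.mul_apply] at h1
    have h2 : aeval f (q : ℚ[X]) w = 0 := hq
    rw [h2, map_zero] at h1
    exact hw0 h1.symm
  have hrange : LinearMap.range ev ≤ W := by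
    rintro v ⟨q, rfl⟩
    exact hmem _
  have hdim : Module.finrank ℚ V ≤ Module.finrank ℚ (LinearMap.range ev) := by
    rw [LinearMap.finrank_range_of_inj hinj, LinearEquiv.finrank_eq (degreeLTEquiv ℚ _)]
    simp
  have hW2 : Module.finrank ℚ (LinearMap.range ev) ≤ Module.finrank ℚ W :=
    Submodule.finrank_mono hrange
  apply Submodule.eq_top_of_finrank_eq
  apply le_antisymm (Submodule.finrank_le W)
  exact hdim.trans hW2

/-- `Φ₂₀(Z) = 0` over the integers -/
theorem mZ_phi : mZ ^ 8 - mZ ^ 6 + mZ ^ 4 - mZ ^ 2 + 1 = 0 := by decide +kernel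

theorem Qm_mul {n : ℕ} (A B : Matrix (Fin n) (Fin n) ℤ) : Qm (A * B) = Qm A * Qm B := by
  unfold Qm
  exact Matrix.map_mul

theorem Qm_phi : (Qm mZ) ^ 8 - (Qm mZ) ^ 6 + (Qm mZ) ^ 4 - (Qm mZ) ^ 2 + 1 = 0 := by
  have h := congrArg (RingHom.mapMatrix (m := Fin 8) (Int.castRingHom ℚ)) mZ_phi
  simp only [map_add, map_sub, map_pow, map_one, map_zero] at h
  exact h

theorem grpH_irreducible (W : Submodule ℚ (Fin 8 → ℚ))
    (hW : ∀ h ∈ grpH, ∀ w ∈ W, (Qm (h : M8)).mulVec w ∈ W) : W = ⊥ ∨ W = ⊤ := by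
  apply eq_bot_or_eq_top_of_irreducible (Matrix.toLin' (Qm mZ)) (cyclotomic 20 ℚ)
    (cyclotomic.irreducible_rat (by norm_num))
  · rw [cyclotomic_20]
    simp only [Module.finrank_fintype_fun_eq_card, Fintype.card_fin]
    compute_degree!
  · rw [cyclotomic_20]
    simp only [map_add, map_sub, map_pow, aeval_X, map_one]
    have h := congrArg (Matrix.toLinAlgEquiv' (R := ℚ) (n := Fin 8)) Qm_phi
    simp only [map_add, map_sub, map_pow, map_one, map_zero] at h
    exact h
  · intro w hw
    exact hW uZ uZ_mem w hw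

end Pool.Agent.H88.Cryst
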