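import Pool.Agent.H88.Cryst.Types

set_option autoImplicit false

/-!
No automorphism of `T ⋊ H` maps the pair `(Z, S)` to the pair `(Z, Z⁵ S)`.
-/

namespace Pool.Agent.H88.Cryst

open Matrix

section General

variable {T H : Type} [AddCommGroup T] [Group H] [DistribMulAction H T]

theorem SD.pow_h (x : SD T H) (n : ℕ) : (x ^ n).h = x.h ^ n := by
  induction n with
  | zero => simp
  | succ n ih => rw [pow_succ, SD.mul_h, ih, pow_succ]

theorem SD.pow_one_h (t : T) (n : ℕ) : ((⟨t, 1⟩ : SD T H) ^ n) = ⟨n • t, 1⟩ := by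
  induction n with
  | zero => ext <;> simp
  | succ n ih =>
    rw [pow_succ, ih]
    ext
    · show n • t + (1 : H) • t = (n + 1) • t
      rw [one_smul, succ_nsmul]
    · show (1 : H) * 1 = 1
      simp

/-- The subgroup `T` is characteristic in `T ⋊ H`. -/
theorem SD.aut_h_eq_one [Finite H] (htf : ∀ n : ℕ, n ≠ 0 → ∀ x : T, n • x = 0 → x = 0)
    (hfaith : ∀ h : H, (∀ t : T, h • t = t) → h = 1) (θ : SD T H ≃* SD T H) (t : T) :
    (θ ⟨t, 1⟩).h = 1 := by
  set N := Nat.card H with hN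
  have hN0 : N ≠ 0 := Nat.card_pos.ne'
  apply hfaith
  intro v
  set x := θ ⟨t, 1⟩ with hx
  -- `x` commutes with every `N`-th power
  have hcomm : ∀ z : SD T H, x * z ^ N = z ^ N * x := by
    intro z
    obtain ⟨y, rfl⟩ := θ.surjective z
    have h1 : (y ^ N).h = 1 := by
      rw [SD.pow_h]
      exact pow_card_eq_one'
    have h2 : (⟨t, 1⟩ : SD T H) * y ^ N = y ^ N * ⟨t, 1⟩ := by
      ext
      · show t + (1 : H) • (y ^ N).t = (y ^ N).t + (y ^ N).h • t
        rw [h1, one_smul, one_smul, add_comm]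
      · show 1 * (y ^ N).h = (y ^ N).h * 1
        simp
    rw [hx, ← map_pow, ← map_mul, h2, map_mul]
  have h1 := hcomm ⟨v, 1⟩
  rw [SD.pow_one_h] at h1
  have h2 := congrArg SD.t h1
  simp only [SD.mul_t, one_smul] at h2
  have h3 : x.h • (N • v) = N • v := by
    have : x.t + x.h • N • v = x.t + N • v := by rw [h2, add_comm]
    exact add_left_cancel this
  have h4 : N • (x.h • v - v) = 0 := by
    rw [smul_sub, smul_comm N x.h v, h3, sub_self]
  exact sub_eq_zero.mp (htf N hN0 _ h4)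

/-- An automorphism of `T ⋊ H` induces an additive map of `T`. -/
theorem SD.exists_additive [Finite H] (htf : ∀ n : ℕ, n ≠ 0 → ∀ x : T, n • x = 0 → x = 0)
    (hfaith : ∀ h : H, (∀ t : T, h • t = t) → h = 1) (θ : SD T H ≃* SD T H) :
    ∃ f : T →+ T, Function.Surjective f ∧
      ∀ g g' : H, θ ⟨0, g⟩ = ⟨0, g'⟩ → ∀ t, f (g • t) = g' • f t := by
  have h1 := SD.aut_h_eq_one htf hfaith θ
  have h1' := SD.aut_h_eq_one htf hfaith θ.symm
  have hθ : ∀ t, θ ⟨t, 1⟩ = ⟨(θ ⟨t, 1⟩).t, 1⟩ := by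
    intro t
    ext
    · rfl
    · exact h1 t
  refine ⟨AddMonoidHom.mk' (fun t => (θ ⟨t, 1⟩).t) ?_, ?_, ?_⟩
  · intro a b
    have e : (⟨a + b, 1⟩ : SD T H) = ⟨a, 1⟩ * ⟨b, 1⟩ := by
      ext
      · show a + b = a + (1 : H) • b
        rw [one_smul]
      · show (1 : H) = 1 * 1
        simp
    show (θ ⟨a + b, 1⟩).t = _
    rw [e, map_mul, SD.mul_t, h1 a, one_smul]
  · intro s
    refine ⟨(θ.symm ⟨s, 1⟩).t, ?_⟩
    show (θ ⟨(θ.symm ⟨s, 1⟩).t, 1⟩).t = s
    have e : (⟨(θ.symm ⟨s, 1⟩).t, 1⟩ : SD T H) = θ.symm ⟨s, 1⟩ := by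
      ext
      · rfl
      · exact (h1' s).symm
    rw [e, MulEquiv.apply_symm_apply]
  · intro g g' hg t
    show (θ ⟨g • t, 1⟩).t = g' • (θ ⟨t, 1⟩).t
    have e : (⟨g • t, 1⟩ : SD T H) * ⟨0, g⟩ = ⟨0, g⟩ * ⟨t, 1⟩ := by
      ext
      · show g • t + (1 : H) • (0 : T) = 0 + g • t
        simp
      · show 1 * g = g * 1
        simp
    have e2 := congrArg θ e
    rw [map_mul, map_mul, hg] at e2
    have e3 := congrArg SD.t e2
    simpa using e3

end General

theorem grpH_faithful (h : grpH) (hh : ∀ t : Fin 8 → ℤ, h • t = t) : h = 1 := by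
  ext1
  ext1
  apply Matrix.ext_of_mulVec_single
  intro j
  have := hh (Pi.single j 1)
  rw [subgroup_smul_def] at this
  rw [this]
  show _ = (1 : M8).mulVec _
  rw [Matrix.one_mulVec]

/-- the standard basis vector `ζ^j` -/
def ej (j : Fin 8) : Fin 8 → ℤ := Pi.single j 1

theorem mZ_ej0 : mZ.mulVec (ej 0) = ej 1 := by decide +kernel
theorem mZ_ej1 : mZ.mulVec (ej 1) = ej 2 := by decide +kernel
theorem mZ_ej2 : mZ.mulVec (ej 2) = ej 3 := by decide +kernel
theorem mZ_ej3 : mZ.mulVec (ej 3) = ej 4 := by decide +kernel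
theorem mZ_ej4 : mZ.mulVec (ej 4) = ej 5 := by decide +kernel
theorem mZ_ej5 : mZ.mulVec (ej 5) = ej 6 := by decide +kernel
theorem mZ_ej6 : mZ.mulVec (ej 6) = ej 7 := by decide +kernel
theorem mS_ej0 : mS.mulVec (ej 0) = ej 0 := by decide +kernel

/-- the matrix `i S` -/
def mIS : M8 := mI * mS

theorem mIS_eq : mIS = !![0, -1, 0, 0, 0, 1, 0, 0; 0, 0, -1, 0, 0, 0, 0, 0;
    0, 1, 0, 0, 0, 0, 0, 0; 0, 0, 0, 0, 0, 0, 1, 0; 0, -1, 0, -1, 0, 0, 0, 0;
    1, 0, 0, 0, 0, 0, 0, 0; 0, 1, 0, 0, 0, 0, 0, 1; 0, 0, 0, 0, -1, 0, 0, 0] := by decide +kernel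

/-- The vectors fixed by `i S`. -/
theorem fixed_vec (r : Fin 8 → ℤ) (h : mIS.mulVec r = r) :
    r = (r 0 - r 4) • (mH1.mulVec (ej 0)) + (r 4) • (mH2.mulVec (ej 0)) := by
  have e1 : mH1.mulVec (ej 0) = ![1, 0, 0, 0, 0, 1, 0, 0] := by decide +kernel
  have e2 : mH2.mulVec (ej 0) = ![1, 0, 0, -1, 1, 1, -1, -1] := by decide +kernel
  rw [mIS_eq] at h
  have h0 := congrFun h 0
  have h1 := congrFun h 1
  have h2 := congrFun h 2
  have h3 := congrFun h 3
  have h4 := congrFun h 4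
  have h5 := congrFun h 5
  have h6 := congrFun h 6
  have h7 := congrFun h 7
  simp [Matrix.mulVec, dotProduct, Fin.sum_univ_succ] at h0 h1 h2 h3 h4 h5 h6 h7
  rw [e1, e2]
  funext i
  fin_cases i <;> simp <;> omega

/-- A quadratic form in the nonprincipal class of discriminant `-20` does not represent `1`. -/
theorem form_ne_one (a b : ℤ) : 2 * a ^ 2 + 2 * a * b + 3 * b ^ 2 ≠ 1 := by
  intro h
  have h1 : (2 * a + b) ^ 2 + 5 * b ^ 2 = 2 := by nlinarith
  have hb : b = 0 := by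
    by_contra hb
    have : 1 ≤ b ^ 2 := by
      have := sq_nonneg b
      have h2 : b ^ 2 ≠ 0 := pow_ne_zero 2 hb
      omega
    nlinarith [sq_nonneg (2 * a + b)]
  subst hb
  have h2 : 2 * a ^ 2 = 1 := by linarith
  omega

/-- **No automorphism.** -/
theorem no_aut (f : (Fin 8 → ℤ) →+ (Fin 8 → ℤ)) (hsurj : Function.Surjective f)
    (hZ : ∀ t, f (mZ.mulVec t) = mZ.mulVec (f t))
    (hS : ∀ t, f (mS.mulVec t) = mIS.mulVec (f t)) : False := by
  set r := f (ej 0) with hr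
  have hfix : mIS.mulVec r = r := by
    rw [hr, ← hS, mS_ej0]
  have hr2 := fixed_vec r hfix
  set b : ℤ := r 4 with hb
  set a : ℤ := r 0 - r 4 with ha
  set X : M8 := a • mH1 + b • mH2 with hX
  set Y : M8 := a • mG1 + b • mG2 with hY
  have hXZ : ∀ t, X.mulVec (mZ.mulVec t) = mZ.mulVec (X.mulVec t) := by
    intro t
    rw [Matrix.mulVec_mulVec, Matrix.mulVec_mulVec]
    congr 1
    rw [hX, add_mul, mul_add, smul_mul_assoc, smul_mul_assoc, mul_smul_comm, mul_smul_comm,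
      mH1_comm, mH2_comm]
  have g0 : f (ej 0) = X.mulVec (ej 0) := by
    rw [← hr, hX, Matrix.add_mulVec, Matrix.smul_mulVec, Matrix.smul_mulVec]
    exact hr2
  have step : ∀ i j : Fin 8, mZ.mulVec (ej i) = ej j → f (ej i) = X.mulVec (ej i) →
      f (ej j) = X.mulVec (ej j) := by
    intro i j hij hi
    rw [← hij, hZ, hXZ, hi]
  have g1 := step 0 1 mZ_ej0 g0
  have g2 := step 1 2 mZ_ej1 g1
  have g3 := step 2 3 mZ_ej2 g2
  have g4 := step 3 4 mZ_ej3 g3
  have g5 := step 4 5 mZ_ej4 g4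
  have g6 := step 5 6 mZ_ej5 g5
  have g7 := step 6 7 mZ_ej6 g6
  have gall : ∀ j : Fin 8, f (ej j) = X.mulVec (ej j) := by
    intro j
    fin_cases j
    · exact g0
    · exact g1
    · exact g2
    · exact g3
    · exact g4
    · exact g5
    · exact g6
    · exact g7
  have hfX : ∀ t, f t = X.mulVec t := by
    intro t
    have ht : t = ∑ j, t j • ej j := by
      unfold ej
      exact (pi_eq_sum_univ' t).trans (by simp [Pi.single_apply, Finset.sum_apply, funext_iff])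
    rw [ht, map_sum]
    rw [Matrix.mulVec_sum]
    apply Finset.sum_congr rfl
    intro j _
    rw [map_zsmul, Matrix.mulVec_smul, gall j]
  set q : ℤ := 2 * a ^ 2 + 2 * a * b + 3 * b ^ 2 with hq
  have hYX : Y * X = q • (1 : M8) := by
    have e : Y * X = (a * a) • (mG1 * mH1) + (a * b) • (mG1 * mH2 + mG2 * mH1) +
        (b * b) • (mG2 * mH2) := by
      rw [hX, hY]
      simp only [add_mul, mul_add, smul_mul_assoc, mul_smul_comm, smul_add, smul_smul]
      rw [mul_comm b a]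
      abel
    rw [e, mG1_mH1, mG_mH, mG2_mH2]
    have h2 : (2 : M8) = (2 : ℤ) • (1 : M8) := by simp
    have h3 : (3 : M8) = (3 : ℤ) • (1 : M8) := by simp
    rw [h2, h3, smul_smul, smul_smul, smul_smul, ← add_smul, ← add_smul]
    congr 1
    rw [hq]
    ring
  obtain ⟨x, hx⟩ := hsurj (ej 0)
  rw [hfX] at hx
  have h1 : Y.mulVec (ej 0) = q • x := by
    rw [← hx, Matrix.mulVec_mulVec, hYX, Matrix.smul_mulVec, Matrix.one_mulVec]
  have e1 : mG1.mulVec (ej 0) = ![1, 0, 0, 0, 0, -1, 0, 0] := by decide +kernel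
  have e2 : mG2.mulVec (ej 0) = ![1, 0, 0, 1, 1, -1, -1, 1] := by decide +kernel
  rw [hY, Matrix.add_mulVec, Matrix.smul_mulVec, Matrix.smul_mulVec, e1, e2] at h1
  have k0 := congrFun h1 0
  have k4 := congrFun h1 4
  simp at k0 k4
  -- `a + b = q x₀`, `b = q x₄`
  by_cases hq0 : q = 0
  · rw [hq0] at k0 k4
    have hb0 : b = 0 := by linarith
    have ha0 : a = 0 := by linarith
    have hX0 : X = 0 := by rw [hX, ha0, hb0]; simp
    rw [hX0, Matrix.zero_mulVec] at hx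
    have := congrFun hx 0
    simp [ej] at this
  · have hbq : b = q * x 4 := k4
    have haq : a = q * (x 0 - x 4) := by linarith
    have h2 : q * (q * (2 * (x 0 - x 4) ^ 2 + 2 * (x 0 - x 4) * (x 4) + 3 * (x 4) ^ 2)) = q * 1 := by
      have : q = 2 * (q * (x 0 - x 4)) ^ 2 + 2 * (q * (x 0 - x 4)) * (q * x 4) +
          3 * (q * x 4) ^ 2 := by rw [← haq, ← hbq]
      linarith
    have h3 := mul_left_cancel₀ hq0 h2
    have h4 := Int.eq_one_or_neg_one_of_mul_eq_one' h3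
    rcases h4 with h4 | h4
    · exact form_ne_one _ _ h4.2
    · have hpos : 0 ≤ 2 * (x 0 - x 4) ^ 2 + 2 * (x 0 - x 4) * (x 4) + 3 * (x 4) ^ 2 := by
        nlinarith [sq_nonneg (x 0 - x 4 + x 4), sq_nonneg (x 0 - x 4), sq_nonneg (x 4)]
      linarith [h4.2]

/-- `T ⋊ H` is not homogeneous. -/
theorem not_homogeneous_SD : ¬ IsHomogeneous (SD (Fin 8 → ℤ) grpH) := by
  intro hhom
  obtain ⟨φ, hφ, hsame⟩ := sameType_pair
  let z : grpH := ⟨uZ, uZ_mem⟩
  let s : grpH := ⟨uS, uS_mem⟩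
  have hz : ((φ z : grpH) : M8ˣ) = uZ := ((rel_Z).unique (hφ z)).symm
  have hs : ((φ s : grpH) : M8ˣ) = uZ ^ 5 * uS := ((rel_S).unique (hφ s)).symm
  obtain ⟨θ, hθ⟩ := hhom 2 (by norm_num) _ _ (hsame ![z, s])
  obtain ⟨f, hf, hfg⟩ := SD.exists_additive int_torsionFree grpH_faithful θ
  have h0 := hfg z (φ z) (hθ 0)
  have h1 := hfg s (φ s) (hθ 1)
  refine no_aut f hf (fun t => ?_) (fun t => ?_)
  · have := h0 t
    rw [subgroup_smul_def, subgroup_smul_def, hz] at this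
    exact this
  · have := h1 t
    rw [subgroup_smul_def, subgroup_smul_def, hs] at this
    have e : ((uZ ^ 5 * uS : M8ˣ) : M8) = mIS := by
      show mZ ^ 5 * mS = mI * mS
      rw [mZ_pow5]
    rw [e] at this
    exact this

end Pool.Agent.H88.Cryst
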