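import Pool.Agent.H88.Cryst.Defs

set_option autoImplicit false

/-!
Ultrapower argument: an additive automorphism of the ultrapower `T*` of `T` which is compatible
with the action of a finite group `H` up to an automorphism `φ` of `H` shows that tuples `u` and
`φ ∘ u` of `H` have the same type in the semidirect product `T ⋊ H`.
-/

namespace Pool.Agent.H88.Cryst

open FirstOrder Filter

/-- The semidirect product of an additive group `T` and a group `H` acting on it. -/
@[ext] structure SD (T H : Type) where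
  t : T
  h : H

namespace SD

variable {T H : Type} [AddCommGroup T] [Group H] [DistribMulAction H T]

instance : Group (SD T H) where
  mul a b := ⟨a.t + a.h • b.t, a.h * b.h⟩
  one := ⟨0, 1⟩
  inv a := ⟨-(a.h⁻¹ • a.t), a.h⁻¹⟩
  mul_assoc a b c := by
    ext
    · show (a.t + a.h • b.t) + (a.h * b.h) • c.t = a.t + a.h • (b.t + b.h • c.t)
      rw [smul_add, mul_smul, add_assoc]
    · exact mul_assoc _ _ _
  one_mul a := by
    ext
    · show 0 + (1 : H) • a.t = a.t
      simp
    · exact one_mul _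
  mul_one a := by
    ext
    · show a.t + a.h • (0 : T) = a.t
      simp
    · exact mul_one _
  inv_mul_cancel a := by
    ext
    · show -(a.h⁻¹ • a.t) + a.h⁻¹ • a.t = 0
      simp
    · exact inv_mul_cancel _

@[simp] theorem mul_t (a b : SD T H) : (a * b).t = a.t + a.h • b.t := rfl
@[simp] theorem mul_h (a b : SD T H) : (a * b).h = a.h * b.h := rfl
@[simp] theorem one_t : (1 : SD T H).t = 0 := rfl
@[simp] theorem one_h : (1 : SD T H).h = 1 := rfl
@[simp] theorem inv_t (a : SD T H) : (a⁻¹).t = -(a.h⁻¹ • a.t) := rfl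
@[simp] theorem inv_h (a : SD T H) : (a⁻¹).h = a.h⁻¹ := rfl

end SD

theorem sameType_of_equiv {G G' : Type*} [Group G] [Group G'] (e : G ≃* G') {k : ℕ}
    (u v : Fin k → G) (h : SameType u v) : SameType (fun i => e (u i)) (fun i => e (v i)) := by
  let e' : G ≃[groupLang] G' :=
    { e.toEquiv with
      map_fun' := fun {n} (f : GroupFn n) x => by
        cases f with
        | mul => exact map_mul e _ _
        | inv => exact map_inv e _
        | one => exact map_one e
      map_rel' := fun {n} (r : Empty) x => r.elim }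
  intro φ
  have h1 : φ.Realize (fun i => e (u i)) ↔ φ.Realize u := by
    have := Language.StrongHomClass.realize_formula e' φ (v := u)
    exact this
  have h2 : φ.Realize (fun i => e (v i)) ↔ φ.Realize v := by
    have := Language.StrongHomClass.realize_formula e' φ (v := v)
    exact this
  rw [h1, h2]
  exact h φ

theorem isHomogeneous_of_equiv {G G' : Type*} [Group G] [Group G'] (e : G ≃* G')
    (h : IsHomogeneous G) : IsHomogeneous G' := by
  intro k hk u v huv
  obtain ⟨σ, hσ⟩ := h k hk (fun i => e.symm (u i)) (fun i => e.symm (v i))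
    (sameType_of_equiv e.symm u v huv)
  refine ⟨e.symm.trans (σ.trans e), fun i => ?_⟩
  simp [hσ i]

section Ultra

variable (U : Ultrafilter ℕ) {T H : Type} [AddCommGroup T] [Group H] [DistribMulAction H T]

/-- pick a representing sequence of a germ -/
noncomputable def rep {X : Type} (x : Germ (U : Filter ℕ) X) : ℕ → X := Quotient.out x

theorem coe_rep {X : Type} (x : Germ (U : Filter ℕ) X) : ((rep U x : ℕ → X) : Germ _ X) = x :=
  Quotient.out_eq x

/-- If `φ.Realize u` in `G` can be transported along an automorphism of an ultrapower of `G`, the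
two tuples have the same type. -/
theorem sameType_of_ultrapower {G : Type} [Group G] {k : ℕ} (u v : Fin k → G)
    (Θ : (U : Filter ℕ).Product (fun _ => G) ≃[groupLang] (U : Filter ℕ).Product (fun _ => G))
    (hΘ : ∀ i, Θ ((fun _ => u i : ℕ → G) : (U : Filter ℕ).Product (fun _ => G)) =
      ((fun _ => v i : ℕ → G) : (U : Filter ℕ).Product (fun _ => G))) :
    SameType u v := by
  intro φ
  have h1 := Language.Ultraproduct.realize_formula_cast (M := fun _ : ℕ => G) (u := U) φ
    (fun i => (fun _ => u i))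
  have h2 := Language.Ultraproduct.realize_formula_cast (M := fun _ : ℕ => G) (u := U) φ
    (fun i => (fun _ => v i))
  simp only [eventually_const] at h1 h2
  have h3 := Language.StrongHomClass.realize_formula Θ φ
    (v := fun i => ((fun _ => u i : ℕ → G) : (U : Filter ℕ).Product (fun _ => G)))
  have h4 : (Θ ∘ fun i => ((fun _ => u i : ℕ → G) : (U : Filter ℕ).Product (fun _ => G))) =
      fun i => ((fun _ => v i : ℕ → G) : (U : Filter ℕ).Product (fun _ => G)) := by
    funext i
    exact hΘ i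
  have h5 := iff_of_eq (congrArg (fun w => φ.Realize w) h4)
  exact h1.symm.trans (h3.symm.trans (h5.trans h2))

/-- The action of `(Φ, φ)` on sequences of elements of `T ⋊ H`. -/
noncomputable def seqMap (Φ : Germ (U : Filter ℕ) T → Germ (U : Filter ℕ) T) (φ : H → H)
    (x : ℕ → SD T H) : ℕ → SD T H :=
  fun k => ⟨rep U (Φ ((fun k => (x k).t : ℕ → T) : Germ (U : Filter ℕ) T)) k, φ (x k).h⟩

theorem seqMap_congr (Φ : Germ (U : Filter ℕ) T → Germ (U : Filter ℕ) T) (φ : H → H)
    (x y : ℕ → SD T H) (h : x =ᶠ[U] y) : seqMap U Φ φ x =ᶠ[U] seqMap U Φ φ y := by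
  have h1 : ((fun k => (x k).t : ℕ → T) : Germ (U : Filter ℕ) T) = (fun k => (y k).t : ℕ → T) := by
    rw [Germ.coe_eq]
    filter_upwards [h] with k hk
    rw [hk]
  filter_upwards [h] with k hk
  unfold seqMap
  rw [h1, hk]

theorem rep_eventuallyEq {X : Type} (x : Germ (U : Filter ℕ) X) (f : ℕ → X)
    (h : x = (f : Germ (U : Filter ℕ) X)) : rep U x =ᶠ[U] f := by
  rw [← Germ.coe_eq (l := (U : Filter ℕ)), coe_rep, h]

theorem seqMap_seqMap (Φ : Germ (U : Filter ℕ) T ≃+ Germ (U : Filter ℕ) T) (φ : H ≃* H)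
    (x : ℕ → SD T H) : seqMap U Φ.symm φ.symm (seqMap U Φ φ x) =ᶠ[U] x := by
  have h1 : Φ.symm ((fun k => (seqMap U Φ φ x k).t : ℕ → T) : Germ (U : Filter ℕ) T) =
      ((fun k => (x k).t : ℕ → T) : Germ (U : Filter ℕ) T) := by
    rw [AddEquiv.symm_apply_eq]
    exact coe_rep U _
  filter_upwards [rep_eventuallyEq U _ _ h1] with k hk
  ext
  · exact hk
  · show φ.symm (φ (x k).h) = (x k).h
    simp

/-- In an ultrapower of a finite type every element is constant. -/
theorem exists_eventually_eq [Finite H] (f : ℕ → H) : ∃ h : H, ∀ᶠ k in (U : Filter ℕ), f k = h := by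
  have h1 : (⋃ h ∈ (Set.univ : Set H), {k | f k = h}) ∈ (U : Ultrafilter ℕ) := by
    have : (⋃ h ∈ (Set.univ : Set H), {k | f k = h}) = Set.univ := by
      ext k
      simp
    rw [this]
    exact Filter.univ_mem
  rw [Ultrafilter.finite_biUnion_mem_iff Set.finite_univ] at h1
  obtain ⟨h, _, hh⟩ := h1
  exact ⟨h, hh⟩

theorem seqMap_mul [Finite H] (Φ : Germ (U : Filter ℕ) T ≃+ Germ (U : Filter ℕ) T) (φ : H ≃* H)
    (hΦ : ∀ (h : H) (y : Germ (U : Filter ℕ) T), Φ (h • y) = φ h • Φ y)
    (x y : ℕ → SD T H) :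
    seqMap U Φ φ (fun k => x k * y k) =ᶠ[U] fun k => seqMap U Φ φ x k * seqMap U Φ φ y k := by
  obtain ⟨h, hh⟩ := exists_eventually_eq U (fun k => (x k).h)
  have h1 : Φ ((fun k => (x k * y k).t : ℕ → T) : Germ (U : Filter ℕ) T) =
      ((fun k => (seqMap U Φ φ x k * seqMap U Φ φ y k).t : ℕ → T) : Germ (U : Filter ℕ) T) := by
    have e1 : ((fun k => (x k * y k).t : ℕ → T) : Germ (U : Filter ℕ) T) =
        ((fun k => (x k).t : ℕ → T) : Germ (U : Filter ℕ) T) +
        h • ((fun k => (y k).t : ℕ → T) : Germ (U : Filter ℕ) T) := by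
      rw [← Germ.coe_smul, ← Germ.coe_add, Germ.coe_eq]
      filter_upwards [hh] with k hk
      show (x k).t + (x k).h • (y k).t = (x k).t + h • (y k).t
      rw [hk]
    have e2 : ((fun k => (seqMap U Φ φ x k * seqMap U Φ φ y k).t : ℕ → T) :
        Germ (U : Filter ℕ) T) = ((fun k => (seqMap U Φ φ x k).t : ℕ → T) :
        Germ (U : Filter ℕ) T) + φ h • ((fun k => (seqMap U Φ φ y k).t : ℕ → T) :
        Germ (U : Filter ℕ) T) := by
      rw [← Germ.coe_smul, ← Germ.coe_add, Germ.coe_eq]
      filter_upwards [hh] with k hk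
      show (seqMap U Φ φ x k).t + φ (x k).h • (seqMap U Φ φ y k).t = (seqMap U Φ φ x k).t +
        φ h • (seqMap U Φ φ y k).t
      rw [hk]
    rw [e1, e2, map_add, hΦ]
    congr 1
    · exact (coe_rep U _).symm
    · congr 1
      exact (coe_rep U _).symm
  filter_upwards [rep_eventuallyEq U _ _ h1] with k hk
  ext
  · exact hk
  · show φ ((x k).h * (y k).h) = φ (x k).h * φ (y k).h
    exact map_mul φ _ _

/-- The map induced on the ultrapower. -/
noncomputable def prodMap (Φ : Germ (U : Filter ℕ) T → Germ (U : Filter ℕ) T) (φ : H → H) :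
    (U : Filter ℕ).Product (fun _ => SD T H) → (U : Filter ℕ).Product (fun _ => SD T H) :=
  Quotient.map' (seqMap U Φ φ) (fun x y h => seqMap_congr U Φ φ x y h)

theorem prodMap_coe (Φ : Germ (U : Filter ℕ) T → Germ (U : Filter ℕ) T) (φ : H → H)
    (x : ℕ → SD T H) : prodMap U Φ φ (x : (U : Filter ℕ).Product (fun _ => SD T H)) =
      (seqMap U Φ φ x : (U : Filter ℕ).Product (fun _ => SD T H)) := rfl

theorem product_coe_eq {G : Type} (x y : ℕ → G) (h : x =ᶠ[U] y) :
    (x : (U : Filter ℕ).Product (fun _ => G)) = (y : (U : Filter ℕ).Product (fun _ => G)) :=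
  Quotient.sound' h

theorem product_ind {G : Type} {p : (U : Filter ℕ).Product (fun _ => G) → Prop}
    (h : ∀ x : ℕ → G, p (x : (U : Filter ℕ).Product (fun _ => G))) (x) : p x :=
  Quotient.inductionOn' x h

/-- The equivalence of the ultrapower induced by `(Φ, φ)`. -/
noncomputable def prodEquiv (Φ : Germ (U : Filter ℕ) T ≃+ Germ (U : Filter ℕ) T) (φ : H ≃* H) :
    (U : Filter ℕ).Product (fun _ => SD T H) ≃ (U : Filter ℕ).Product (fun _ => SD T H) where
  toFun := prodMap U Φ φ
  invFun := prodMap U Φ.symm φ.symm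
  left_inv := by
    refine product_ind U (fun x => ?_)
    rw [prodMap_coe, prodMap_coe]
    exact product_coe_eq U _ _ (seqMap_seqMap U Φ φ x)
  right_inv := by
    refine product_ind U (fun x => ?_)
    rw [prodMap_coe, prodMap_coe]
    exact product_coe_eq U _ _ (seqMap_seqMap U Φ.symm φ.symm x)

theorem prodMap_mul [Finite H] (Φ : Germ (U : Filter ℕ) T ≃+ Germ (U : Filter ℕ) T) (φ : H ≃* H)
    (hΦ : ∀ (h : H) (y : Germ (U : Filter ℕ) T), Φ (h • y) = φ h • Φ y)
    (x y : ℕ → SD T H) :
    prodMap U Φ φ ((fun k => x k * y k : ℕ → SD T H) : (U : Filter ℕ).Product (fun _ => SD T H)) =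
      ((fun k => seqMap U Φ φ x k * seqMap U Φ φ y k : ℕ → SD T H) :
        (U : Filter ℕ).Product (fun _ => SD T H)) := by
  rw [prodMap_coe]
  exact product_coe_eq U _ _ (seqMap_mul U Φ φ hΦ x y)

theorem seqMap_one (Φ : Germ (U : Filter ℕ) T ≃+ Germ (U : Filter ℕ) T) (φ : H ≃* H) :
    seqMap U Φ φ (fun _ => (1 : SD T H)) =ᶠ[U] fun _ => (1 : SD T H) := by
  have h1 : Φ ((fun _ => (1 : SD T H).t : ℕ → T) : Germ (U : Filter ℕ) T) =
      ((fun _ => (0 : T) : ℕ → T) : Germ (U : Filter ℕ) T) := by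
    have e1 : ((fun _ => (1 : SD T H).t : ℕ → T) : Germ (U : Filter ℕ) T) = 0 := rfl
    rw [e1, map_zero]
    rfl
  filter_upwards [rep_eventuallyEq U _ _ h1] with k hk
  ext
  · exact hk
  · show φ 1 = 1
    exact map_one φ

theorem seqMap_inv [Finite H] (Φ : Germ (U : Filter ℕ) T ≃+ Germ (U : Filter ℕ) T) (φ : H ≃* H)
    (hΦ : ∀ (h : H) (y : Germ (U : Filter ℕ) T), Φ (h • y) = φ h • Φ y)
    (x : ℕ → SD T H) :
    seqMap U Φ φ (fun k => (x k)⁻¹) =ᶠ[U] fun k => (seqMap U Φ φ x k)⁻¹ := by
  have h1 := seqMap_mul U Φ φ hΦ (fun k => (x k)⁻¹) x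
  have h2 : (fun k => (x k)⁻¹ * x k) = fun _ => (1 : SD T H) := by
    funext k
    exact inv_mul_cancel _
  rw [h2] at h1
  filter_upwards [h1, seqMap_one U (T := T) (H := H) Φ φ] with k hk1 hk2
  rw [hk2] at hk1
  exact eq_inv_of_mul_eq_one_left hk1.symm

/-- The automorphism of the ultrapower of `T ⋊ H` (as a structure for the language of groups). -/
noncomputable def prodAut [Finite H] (Φ : Germ (U : Filter ℕ) T ≃+ Germ (U : Filter ℕ) T)
    (φ : H ≃* H) (hΦ : ∀ (h : H) (y : Germ (U : Filter ℕ) T), Φ (h • y) = φ h • Φ y) :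
    (U : Filter ℕ).Product (fun _ => SD T H) ≃[groupLang]
      (U : Filter ℕ).Product (fun _ => SD T H) :=
  { prodEquiv U Φ φ with
    map_fun' := fun {n} (f : GroupFn n) x => by
      obtain ⟨x', hx'⟩ : ∃ x' : Fin n → ℕ → SD T H,
          x = fun i => (x' i : (U : Filter ℕ).Product (fun _ => SD T H)) :=
        ⟨fun i => Quotient.out (x i), funext fun i => (Quotient.out_eq' (x i)).symm⟩
      subst hx'
      show prodMap U Φ φ _ = Language.Structure.funMap (L := groupLang) f
        (fun i => prodMap U Φ φ (x' i : (U : Filter ℕ).Product (fun _ => SD T H)))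
      have h1 := Language.Ultraproduct.funMap_cast (L := groupLang) (M := fun _ : ℕ => SD T H)
        (u := U) f x'
      have h2 := Language.Ultraproduct.funMap_cast (L := groupLang) (M := fun _ : ℕ => SD T H)
        (u := U) f (fun i => seqMap U Φ φ (x' i))
      refine Eq.trans (congrArg (prodMap U Φ φ) h1) (Eq.trans ?_ h2.symm)
      refine product_coe_eq U _ _ ?_
      cases f with
      | mul => exact seqMap_mul U Φ φ hΦ (x' 0) (x' 1)
      | inv => exact seqMap_inv U Φ φ hΦ (x' 0)
      | one => exact seqMap_one U Φ φ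
    map_rel' := fun {n} (r : Empty) x => r.elim }

theorem prodAut_apply [Finite H] (Φ : Germ (U : Filter ℕ) T ≃+ Germ (U : Filter ℕ) T)
    (φ : H ≃* H) (hΦ : ∀ (h : H) (y : Germ (U : Filter ℕ) T), Φ (h • y) = φ h • Φ y)
    (x : (U : Filter ℕ).Product (fun _ => SD T H)) :
    prodAut U Φ φ hΦ x = prodMap U Φ φ x := rfl

/-- **Transfer theorem.** If the ultrapower `T*` has an additive automorphism `Φ` which is
semilinear with respect to the automorphism `φ` of the finite group `H`, then for every tuple `u`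
of elements of `H` the tuples `u` and `φ ∘ u` have the same type in `T ⋊ H`. -/
theorem sameType_of_germ [Finite H] (Φ : Germ (U : Filter ℕ) T ≃+ Germ (U : Filter ℕ) T)
    (φ : H ≃* H) (hΦ : ∀ (h : H) (y : Germ (U : Filter ℕ) T), Φ (h • y) = φ h • Φ y)
    {k : ℕ} (u : Fin k → H) :
    SameType (fun i => (⟨0, u i⟩ : SD T H)) (fun i => (⟨0, φ (u i)⟩ : SD T H)) := by
  refine sameType_of_ultrapower U _ _ (prodAut U Φ φ hΦ) (fun i => ?_)
  refine (prodAut_apply U Φ φ hΦ _).trans ?_
  refine (prodMap_coe U Φ φ _).trans ?_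
  refine product_coe_eq U _ _ ?_
  have h1 : Φ ((fun _ => (0 : T) : ℕ → T) : Germ (U : Filter ℕ) T) =
      ((fun _ => (0 : T) : ℕ → T) : Germ (U : Filter ℕ) T) := by
    have e1 : ((fun _ => (0 : T) : ℕ → T) : Germ (U : Filter ℕ) T) = 0 := rfl
    rw [e1, map_zero]
  filter_upwards [rep_eventuallyEq U _ _ h1] with k hk
  ext
  · exact hk
  · rfl

end Ultra

end Pool.Agent.H88.Cryst
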