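import Pool.Agent.H88.Cryst.Example

set_option autoImplicit false

/-!
The tuples `(Z, S)` and `(Z, Z⁵ S)` have the same type in `T ⋊ H`.
-/

namespace Pool.Agent.H88.Cryst

open Filter Matrix

section GermEnd

variable (U : Ultrafilter ℕ) {T : Type} [AddCommGroup T]

/-- The endomorphism of the ultrapower given by a sequence of endomorphisms. -/
noncomputable def germEnd (A : ℕ → T →+ T) : Germ (U : Filter ℕ) T →+ Germ (U : Filter ℕ) T :=
  AddMonoidHom.mk' (fun x => Germ.map₂ (fun (a : T →+ T) (y : T) => a y)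
      ((A : ℕ → (T →+ T)) : Germ (U : Filter ℕ) (T →+ T)) x) (by
    intro x y
    induction x using Germ.inductionOn with
    | h x =>
      induction y using Germ.inductionOn with
      | h y =>
        show ((fun k => A k (x k + y k) : ℕ → T) : Germ (U : Filter ℕ) T) =
          ((fun k => A k (x k) + A k (y k) : ℕ → T) : Germ (U : Filter ℕ) T)
        congr 1
        funext k
        exact map_add _ _ _)

theorem germEnd_coe (A : ℕ → T →+ T) (x : ℕ → T) :
    germEnd U A (x : Germ (U : Filter ℕ) T) = ((fun k => A k (x k) : ℕ → T) : Germ (U : Filter ℕ) T) :=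
  rfl

theorem germ_torsionFree (htf : ∀ n : ℕ, n ≠ 0 → ∀ x : T, n • x = 0 → x = 0)
    (n : ℕ) (hn : n ≠ 0) (x : Germ (U : Filter ℕ) T) (hx : n • x = 0) : x = 0 := by
  induction x using Germ.inductionOn with
  | h f =>
    rw [← Germ.coe_smul, ← Germ.coe_zero, Germ.coe_eq] at hx
    rw [← Germ.coe_zero, Germ.coe_eq]
    filter_upwards [hx] with k hk
    exact htf n hn _ hk

theorem germ_coe_mem_divPart (f : ℕ → T)
    (h : ∀ n : ℕ, n ≠ 0 → ∀ᶠ k in (U : Filter ℕ), ∃ y : T, n • y = f k) :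
    (f : Germ (U : Filter ℕ) T) ∈ divPart (Germ (U : Filter ℕ) T) := by
  classical
  intro n hn
  refine ⟨((fun k => if hk : ∃ y : T, n • y = f k then hk.choose else 0 : ℕ → T) :
    Germ (U : Filter ℕ) T), ?_⟩
  rw [← Germ.coe_smul, Germ.coe_eq]
  filter_upwards [h n hn] with k hk
  show n • (if hk : ∃ y : T, n • y = f k then hk.choose else 0) = f k
  rw [dif_pos hk]
  exact hk.choose_spec

end GermEnd

/-- the product of the first `k` odd numbers -/
def bs (k : ℕ) : ℕ := ∏ j ∈ Finset.range k, (2 * j + 1)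

theorem bs_odd (k : ℕ) : Odd (bs k) := by
  unfold bs
  apply Finset.prod_induction _ Odd (fun a b => Odd.mul) odd_one
  intro j _
  exact ⟨j, rfl⟩

/-- `2 + 2b + 3b²` -/
def qs (k : ℕ) : ℕ := 2 + 2 * bs k + 3 * bs k ^ 2

theorem qs_coprime (k : ℕ) : Nat.Coprime (qs k) k.factorial := by
  apply Nat.Coprime.symm
  apply Nat.coprime_of_dvd
  intro p hp hpk hpq
  have hpk' : p ≤ k := (hp.dvd_factorial).mp hpk
  rcases hp.eq_two_or_odd' with h2 | hodd
  · subst h2
    have hb := bs_odd k
    have : Odd (qs k) := by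
      unfold qs
      obtain ⟨m, hm⟩ := hb
      rw [hm]
      exact ⟨1 + (2 * m + 1) + 6 * m ^ 2 + 6 * m + 1, by ring⟩
    exact (Nat.not_even_iff_odd.mpr this) (even_iff_two_dvd.mpr hpq)
  · have hpb : p ∣ bs k := by
      obtain ⟨j, hj⟩ := hodd
      unfold bs
      rw [hj]
      apply Finset.dvd_prod_of_mem (fun j => 2 * j + 1)
      rw [Finset.mem_range]
      have := hp.two_le
      omega
    have h1 : p ∣ 2 * bs k + 3 * bs k ^ 2 :=
      dvd_add (Dvd.dvd.mul_left hpb 2) (Dvd.dvd.mul_left (dvd_pow hpb (by norm_num)) 3)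
    have h2 : p ∣ 2 := by
      have : qs k = (2 * bs k + 3 * bs k ^ 2) + 2 := by unfold qs; ring
      rw [this] at hpq
      exact (Nat.dvd_add_right h1).mp hpq
    have h3 := (Nat.prime_dvd_prime_iff_eq hp Nat.prime_two).mp h2
    rw [h3] at hodd
    exact absurd hodd (by decide)

/-- Bezout coefficients -/
theorem exists_bezout (k : ℕ) : ∃ c e : ℤ, c * (qs k : ℤ) + e * (k.factorial : ℤ) = 1 := by
  have := Nat.isCoprime_iff_coprime.mpr (qs_coprime k)
  obtain ⟨a, b, hab⟩ := this
  exact ⟨a, b, hab⟩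

/-- the endomorphism of `ℤ⁸` given by a matrix -/
def mEnd (A : M8) : (Fin 8 → ℤ) →+ (Fin 8 → ℤ) := (Matrix.mulVecLin A).toAddMonoidHom

theorem mEnd_apply (A : M8) (x : Fin 8 → ℤ) : mEnd A x = A.mulVec x := rfl

/-- `(1 + i) + b (i + (1 - i) w)` -/
def As (k : ℕ) : M8 := mH1 + (bs k : ℤ) • mH2

/-- the complex conjugate of `As` -/
def Bs (k : ℕ) : M8 := mG1 + (bs k : ℤ) • mG2

theorem Bs_mul_As (k : ℕ) : Bs k * As k = (qs k : ℤ) • (1 : M8) := by
  have e : Bs k * As k = mG1 * mH1 + (bs k : ℤ) • (mG1 * mH2 + mG2 * mH1) +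
      ((bs k : ℤ) * bs k) • (mG2 * mH2) := by
    unfold Bs As
    simp only [add_mul, mul_add, smul_mul_assoc, mul_smul_comm, smul_add, smul_smul]
    abel
  rw [e, mG1_mH1, mG_mH, mG2_mH2]
  have h2 : (2 : M8) = (2 : ℤ) • (1 : M8) := by simp
  have h3 : (3 : M8) = (3 : ℤ) • (1 : M8) := by simp
  rw [h2, h3, smul_smul, smul_smul, ← add_smul, ← add_smul]
  congr 1
  unfold qs
  push_cast
  ring

theorem As_mul_Bs (k : ℕ) : As k * Bs k = (qs k : ℤ) • (1 : M8) := by
  have e : As k * Bs k = mH1 * mG1 + (bs k : ℤ) • (mH1 * mG2 + mH2 * mG1) +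
      ((bs k : ℤ) * bs k) • (mH2 * mG2) := by
    unfold Bs As
    simp only [add_mul, mul_add, smul_mul_assoc, mul_smul_comm, smul_add, smul_smul]
    abel
  rw [e, mH1_mG1, mH_mG, mH2_mG2]
  have h2 : (2 : M8) = (2 : ℤ) • (1 : M8) := by simp
  have h3 : (3 : M8) = (3 : ℤ) • (1 : M8) := by simp
  rw [h2, h3, smul_smul, smul_smul, ← add_smul, ← add_smul]
  congr 1
  unfold qs
  push_cast
  ring

theorem As_rel {h h' : M8ˣ} (hr : Rel h h') (k : ℕ) : As k * (h : M8) = (h' : M8) * As k := by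
  have h1 : mH1 * (h : M8) = h' * mH1 := hr.1
  have h2 : mH2 * (h : M8) = h' * mH2 := hr.2
  unfold As
  rw [add_mul, mul_add, smul_mul_assoc, mul_smul_comm, h1, h2]

theorem int_torsionFree (n : ℕ) (hn : n ≠ 0) (x : Fin 8 → ℤ) (hx : n • x = 0) : x = 0 := by
  funext i
  have := congrFun hx i
  simp at this
  rcases this with h | h
  · exact absurd h hn
  · exact h

/-- **Same type.** -/
theorem sameType_pair : ∃ φ : grpH ≃* grpH, (∀ h : grpH, Rel (h : M8ˣ) (φ h : M8ˣ)) ∧
    ∀ {k : ℕ} (u : Fin k → grpH),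
      SameType (fun i => (⟨0, u i⟩ : SD (Fin 8 → ℤ) grpH))
        (fun i => (⟨0, φ (u i)⟩ : SD (Fin 8 → ℤ) grpH)) := by
  obtain ⟨φ, hφ⟩ := exists_phi
  refine ⟨φ, hφ, ?_⟩
  intro k u
  set U : Ultrafilter ℕ := Filter.hyperfilter ℕ with hU
  choose c e hce using exists_bezout
  have hlarge : ∀ n : ℕ, ∀ᶠ k in (U : Filter ℕ), n ≤ k := by
    intro n
    have h1 : (U : Filter ℕ) ≤ atTop := Nat.hyperfilter_le_atTop
    exact h1 (eventually_ge_atTop n)
  -- the maps
  let F := germEnd U (fun k => mEnd (As k))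
  let G := germEnd U (fun k => mEnd (c k • Bs k))
  let f := germEnd U (fun _ => mEnd mH1)
  let g := germEnd U (fun _ => mEnd mG1)
  have key : ∀ (D : ℕ → M8) (hD : ∀ k, D k = (c k * (qs k : ℤ)) • (1 : M8)) (x : ℕ → Fin 8 → ℤ),
      ((fun k => (D k).mulVec (x k) - x k : ℕ → Fin 8 → ℤ) : Germ (U : Filter ℕ) (Fin 8 → ℤ)) ∈
        divPart (Germ (U : Filter ℕ) (Fin 8 → ℤ)) := by
    intro D hD x
    apply germ_coe_mem_divPart
    intro n hn
    filter_upwards [hlarge n] with k hk
    obtain ⟨m, hm⟩ := Nat.dvd_factorial (Nat.pos_of_ne_zero hn) hk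
    refine ⟨(-(e k * (m : ℤ))) • x k, ?_⟩
    rw [hD k, Matrix.smul_mulVec, Matrix.one_mulVec]
    have h1 : c k * (qs k : ℤ) = 1 - e k * ((n : ℤ) * m) := by
      have := hce k
      rw [hm] at this
      push_cast at this
      linarith
    rw [h1]
    funext i
    simp
    ring
  obtain ⟨Φ, hΦ⟩ := exists_semilinear_aut (M := Germ (U : Filter ℕ) (Fin 8 → ℤ)) grpH
    (germ_torsionFree U int_torsionFree) φ F G f g 2 (by norm_num)
    (by
      intro x
      induction x using Germ.inductionOn with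
      | h x =>
        have := key (fun k => (c k • Bs k) * As k) (by
          intro k
          rw [smul_mul_assoc, Bs_mul_As, smul_smul]) x
        simp only [← Matrix.mulVec_mulVec] at this
        exact this)
    (by
      intro x
      induction x using Germ.inductionOn with
      | h x =>
        have := key (fun k => As k * (c k • Bs k)) (by
          intro k
          rw [mul_smul_comm, As_mul_Bs, smul_smul]) x
        simp only [← Matrix.mulVec_mulVec] at this
        exact this)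
    (by
      intro x
      induction x using Germ.inductionOn with
      | h x =>
        show ((fun k => mG1.mulVec (mH1.mulVec (x k)) : ℕ → Fin 8 → ℤ) :
          Germ (U : Filter ℕ) (Fin 8 → ℤ)) = 2 • (x : Germ (U : Filter ℕ) (Fin 8 → ℤ))
        rw [← Germ.coe_smul]
        congr 1
        funext k
        rw [Matrix.mulVec_mulVec, mG1_mH1]
        funext i
        have h2 : (2 : M8) = (2 : ℤ) • (1 : M8) := by simp
        rw [h2, Matrix.smul_mulVec, Matrix.one_mulVec]
        simp)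
    (by
      intro x
      induction x using Germ.inductionOn with
      | h x =>
        show ((fun k => mH1.mulVec (mG1.mulVec (x k)) : ℕ → Fin 8 → ℤ) :
          Germ (U : Filter ℕ) (Fin 8 → ℤ)) = 2 • (x : Germ (U : Filter ℕ) (Fin 8 → ℤ))
        rw [← Germ.coe_smul]
        congr 1
        funext k
        rw [Matrix.mulVec_mulVec, mH1_mG1]
        funext i
        have h2 : (2 : M8) = (2 : ℤ) • (1 : M8) := by simp
        rw [h2, Matrix.smul_mulVec, Matrix.one_mulVec]
        simp)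
    (by
      intro h x
      induction x using Germ.inductionOn with
      | h x =>
        show ((fun k => (As k).mulVec (((h : M8ˣ) : M8).mulVec (x k)) : ℕ → Fin 8 → ℤ) :
          Germ (U : Filter ℕ) (Fin 8 → ℤ)) =
          ((fun k => ((φ h : M8ˣ) : M8).mulVec ((As k).mulVec (x k)) : ℕ → Fin 8 → ℤ) :
          Germ (U : Filter ℕ) (Fin 8 → ℤ))
        congr 1
        funext k
        rw [Matrix.mulVec_mulVec, Matrix.mulVec_mulVec, As_rel (hφ h)])
    (by
      intro h x
      induction x using Germ.inductionOn with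
      | h x =>
        show ((fun k => mH1.mulVec (((h : M8ˣ) : M8).mulVec (x k)) : ℕ → Fin 8 → ℤ) :
          Germ (U : Filter ℕ) (Fin 8 → ℤ)) =
          ((fun k => ((φ h : M8ˣ) : M8).mulVec (mH1.mulVec (x k)) : ℕ → Fin 8 → ℤ) :
          Germ (U : Filter ℕ) (Fin 8 → ℤ))
        congr 1
        funext k
        have h1 : mH1 * ((h : M8ˣ) : M8) = ((φ h : M8ˣ) : M8) * mH1 := (hφ h).1
        rw [Matrix.mulVec_mulVec, Matrix.mulVec_mulVec, h1])
  exact sameType_of_germ U Φ φ hΦ u

end Pool.Agent.H88.Cryst
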